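import Mathlib
import Pool.Agent.Lib.MP_44a246_ntVT.VT00

/-!
# Sharp Vojta inequality with linear forms: hypotheses, (B2) and (B3)

As `ntVT/VA1`, for blocks of degrees `d j ≥ 1`. The rows `rows0` of the point know also that the
quotient by the linear blocks is not too small (see `ntSQ/SQ01`).
-/

namespace Pool.Agent.Lib.MP_44a246_ntVQ

open Pool.Agent.Lib.MP_44a246_nt
open Pool.Agent.Lib.MP_44a246_ntL
open Pool.Agent.Lib.MP_44a246_ntS
open Pool.Agent.Lib.MP_44a246_ntF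
open Pool.Agent.Lib.MP_44a246_ntO
open Pool.Agent.Lib.MP_44a246_ntX
open Pool.Agent.Lib.MP_44a246_ntSH
open Pool.Agent.Lib.MP_44a246_ntVT
open Pool.Agent.Lib.MP_e52354_nt
open WithZero Module

universe u

/-- The rows of the point, with the gain `G`. -/
def Rows0G (κ : Type*) {L : Type*} [Field κ] [Field L] [Algebra κ L] {n p : ℕ}
    (x : Fin (n + 1) → L) (d : Fin p → ℕ) (c : ℕ) (G E : ℝ) : Prop :=
  ∃ U : (j : Fin p) → Submodule L (EX (n + 1) (d j) → L), (∀ j, xm (d j) x ∈ U j) ∧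
    ∑ j, finrank L (U j) ≤ n + c ∧
    G - E ≤ ∑ j, (d j * (height κ x : ℝ) - ht κ (U j)) ∧
    (∑ j with 2 ≤ d j, (ht κ (U j) : ℝ)) +
      (∑ j with ¬ 2 ≤ d j, (finrank L (U j) : ℝ)) * height κ x + G ≤
        (∑ j, (d j : ℝ) + c) * height κ x + E

theorem Rows0G.mono {κ L : Type*} [Field κ] [Field L] [Algebra κ L] {n p : ℕ}
    {x : Fin (n + 1) → L} {d : Fin p → ℕ} {c : ℕ} {G E G' E' : ℝ}
    (h : Rows0G κ x d c G E) (hE : E ≤ E') (hG : G' ≤ G) : Rows0G κ x d c G' E' := by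
  obtain ⟨U, h1, h2, h3, h4⟩ := h
  exact ⟨U, h1, h2, by linarith, by linarith⟩

/-- The hypotheses on the point for `p` blocks of degrees at least `1`; the gain of the rows is at
least `ε H`. -/
structure HypR (κ : Type*) {L : Type*} [Field κ] [Field L] [Algebra κ L] {n p : ℕ}
    (x : Fin (n + 1) → L) (d : Fin p → ℕ) (c : ℕ) (C₀ M E ε : ℝ) : Prop where
  ne : x ≠ 0
  slope : ∀ Q : Submodule L (Fin (n + 1) → L), x ∈ Q →
    (height κ x : ℝ) - ht κ Q ≤ M * ((finrank L Q : ℝ) - 1)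
  pos : 0 ≤ M
  small : M * n ≤ C₀ * height κ x
  hd : n + 2 ≤ ∑ j, d j
  hd1 : ∀ j, 1 ≤ d j
  rows : RowsG κ x d c (ε * height κ x) E
  rows0 : Rows0G κ x d c (ε * height κ x) E
  hE : 0 < E
  big : E * ((n : ℝ) + 2) ^ 20 ≤ height κ x
  hε : 0 < ε
  hε1 : ε ≤ 1

section

variable {κ L : Type*} [Field κ] [Field L] [Algebra κ L] {n p : ℕ} {x : Fin (n + 1) → L}
  {d : Fin p → ℕ} {c : ℕ} {C₀ C₁ M E E' G G' ε : ℝ}

theorem HypR.toL (hyp : HypR κ x d c C₀ M E ε) : HypL κ x C₀ M E :=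
  ⟨hyp.ne, hyp.slope, hyp.pos, hyp.small, hyp.hE, hyp.big⟩

theorem HypR.cb_big (hyp : HypR κ x d c C₀ M E ε) {b : ℝ} (hb : b ≤ ((n : ℝ) + 2) ^ 20) :
    b * E ≤ height κ x := hyp.toL.le hb

theorem HypR.cb_pos (hyp : HypR κ x d c C₀ M E ε) : (0 : ℝ) < height κ x := hyp.toL.H_pos

theorem HypR.cb_p (hyp : HypR κ x d c C₀ M E ε) : 1 ≤ p := by
  by_contra h0
  have h1 : p = 0 := by omega
  subst h1
  have := hyp.hd
  simp at this

/-- the error is small compared with `ε H` -/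
theorem HypR.cb_eps (hyp : HypR κ x d c C₀ M E ε) (hn : 1 ≤ ε * n) {b : ℝ}
    (hb : b ≤ ((n : ℝ) + 2) ^ 19) : b * E ≤ ε * height κ x := by
  have hε := hyp.hε
  have hE := hyp.hE
  have hn0 : (0 : ℝ) ≤ n := Nat.cast_nonneg _
  have h1 : b * E ≤ ((n : ℝ) + 2) ^ 19 * E := mul_le_mul_of_nonneg_right hb hE.le
  have h2 : ((n : ℝ) + 2) ^ 19 * E ≤ ε * (E * ((n : ℝ) + 2) ^ 20) := by
    have h3 : 1 ≤ ε * ((n : ℝ) + 2) := by nlinarith only [hn, hε]
    have h4 : 0 ≤ ((n : ℝ) + 2) ^ 19 * E := by positivity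
    have h5 : ((n : ℝ) + 2) ^ 19 * E * 1 ≤ ((n : ℝ) + 2) ^ 19 * E * (ε * ((n : ℝ) + 2)) :=
      mul_le_mul_of_nonneg_left h3 h4
    have h6 : ((n : ℝ) + 2) ^ 19 * E * (ε * ((n : ℝ) + 2)) = ε * (E * ((n : ℝ) + 2) ^ 20) := by
      ring
    linarith only [h5]
  have h3 : ε * (E * ((n : ℝ) + 2) ^ 20) ≤ ε * height κ x :=
    mul_le_mul_of_nonneg_left hyp.big hε.le
  linarith only [h1, h2, h3]

end

section

variable {κ K : Type*} [Field κ] [IsAlgClosed κ] [CharZero κ] [Field K] [Algebra κ K]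
  {n p : ℕ} {x : Fin (n + 1) → K} {d : Fin p → ℕ} {c : ℕ} {C₀ M E ε : ℝ}

/-- (3c). Proof: `cba_rows` (AB1). -/
theorem cbr_rows (h : IsFF κ K) (hyp : HypR κ x d c C₀ M E ε) (hn : 1 ≤ n) {s : ℝ} (hs : 0 < s)
    {Λ : Submodule K (EX (n + 1) 2 → K)} (hΛ : HasSl κ (s * height κ x / n) (xm 2 x) Λ) :
    ∃ (ν : ℕ) (W : (j : Fin p) → Submodule K (EX (n + 1) (d j) → K)), (∀ j, xm (d j) x ∈ W j) ∧
      ∑ j, (finrank K (W j) : ℝ) ≤ n + ν + c ∧
      ε * height κ x + s / 2 * height κ x / n * ν - E ≤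
        ∑ j, (d j * (height κ x : ℝ) - ht κ (W j)) ∧
      ∀ q ∈ Λ, (finrank K (lam 1 (K ∙ q)) : ℝ) * (n + 1) -
        (finrank K (lam 1 (K ∙ q)) : ℝ) * ((finrank K (lam 1 (K ∙ q)) : ℝ) - 1) / 2 ≤
          ν + (1 + 4 / s * n) + n + c := by
  have hH0 := hyp.cb_pos
  have hn' : (0 : ℝ) < n := by exact_mod_cast hn
  obtain ⟨Λp, hΛp⟩ := exists_isSl h (s / 2 * height κ x / n) (xm 2 x)
  have hlt : s / 2 * height κ x / n < s * height κ x / n := by
    apply div_lt_div_of_pos_right _ hn'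
    apply mul_lt_mul_of_pos_right _ hH0
    linarith only [hs]
  have hle := hΛ.le_isSl h hlt hΛp
  have hb := hΛp.bound h (xm_ne_zero hyp.ne)
  rw [height_xm' h 2 hyp.ne] at hb
  have hht : (0 : ℝ) ≤ ht κ Λp := by exact_mod_cast ht_nonneg h Λp
  obtain ⟨ν, W, h1, h2, h3, h4⟩ := hyp.rows Λ Λp (s * height κ x / n) (s / 2 * height κ x / n)
    (by positivity) hlt.le hΛ hle hΛp.le
  refine ⟨ν, W, h1, by exact_mod_cast h2, ?_, fun q hq => (h4 q hq).trans ?_⟩
  · have h7 : s * height κ x / n - s / 2 * height κ x / n = s / 2 * height κ x / n := by ring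
    rw [h7] at h3
    linarith only [h3]
  · have h5 : (finrank K Λp : ℝ) - 1 ≤ 4 / s * n := by
      have h6 : s / 2 * height κ x / n * ((finrank K Λp : ℝ) - 1) ≤ 2 * height κ x := by
        push_cast at hb
        linarith only [hb, hht]
      have h7 : s / 2 * height κ x / n * (4 / s * n) = 2 * height κ x := by
        field_simp
        ring
      have h8 : 0 < s / 2 * height κ x / n := by positivity
      exact le_of_mul_le_mul_left (by rw [h7]; exact h6) h8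
    linarith only [h5]

/-- all ranks are small (B2). Proof: `cba_rank_one` (AB1) with `s := ε / 8`. With
`γ = ε / (132 p C₀)` and `H' = H / n`: `ε H + ε/16 H' ν - E ≤ p γ n H + ε/32 H' (2 n + ν)`, so
`ε/32 H' ν ≤ p γ n H + ε/16 H - ε H + E ≤ p γ n H` (`cb_eps`), `ν ≤ 32 / (132 C₀) n ^ 2`.
Ranks: `ρ n / 2 ≤ ν + 1 + 32/ε n + 2 n`, so `ρ n ≤ 64 / (132 C₀) n ^ 2 + 70/ε n`, and
`70/ε ≤ n / (132 C₀)`. -/
theorem cbr_rank_one (h : IsFF κ K) (hyp : HypR κ x d c C₀ M E ε) (hC : 1000 ≤ C₀)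
    (hn : 70 * (132 * C₀) ≤ ε * n) (hcn : c ≤ n)
    (hA : ¬ CaseAP κ x d (ε / (132 * p * C₀)) (ε / 32)) {j₀ : Fin p} (hj : 2 ≤ d j₀)
    {W : Submodule K (EX (n + 1) (d j₀) → K)}
    (hW : HasSl κ (ε / 8 * height κ x / n) (xm (d j₀) x) W) :
    ∀ q ∈ lam 2 W, (finrank K (lam 1 (K ∙ q)) : ℝ) ≤ 65 / (132 * C₀) * n := by
  have hε := hyp.hε
  have hε1 := hyp.hε1
  have hn0 : (0 : ℝ) ≤ n := Nat.cast_nonneg _
  have hεn : ε * (n : ℝ) ≤ n := by nlinarith only [hε1]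
  have hn' : (1000 : ℝ) ≤ n := by nlinarith only [hC, hn, hεn]
  have hn1 : 1 ≤ n := by
    have : (1 : ℝ) ≤ n := by linarith
    exact_mod_cast this
  have hcn' : (c : ℝ) ≤ n := by exact_mod_cast hcn
  have hH := hyp.cb_pos
  have hΛ := hasSl_lam h hyp.ne hj hW
  obtain ⟨ν, V, h1, h2, h3, h4⟩ := cbr_rows h hyp hn1 (s := ε / 8) (by positivity) hΛ
  have hE : 2 * E ≤ ε * height κ x := hyp.cb_eps (by linarith only [hC, hn]) (by
    have h19 : ((n : ℝ) + 2) ^ 1 ≤ ((n : ℝ) + 2) ^ 19 :=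
      pow_le_pow_right₀ (by linarith) (by norm_num)
    rw [pow_one] at h19
    linarith only [hC, hn, hεn, h19])
  have hp1 : (1 : ℝ) ≤ p := by exact_mod_cast hyp.cb_p
  have hp0 : (0 : ℝ) < p := by linarith only [hp1]
  have h5 := cbp_sum (κ := κ) (H := (height κ x : ℝ)) (W := V)
    (μ := ε / 32 * height κ x / n) (K := ε / (132 * p * C₀) * n * height κ x) fun j => by
      by_contra h6
      push Not at h6
      exact hA ⟨j, V j, h1 j, h6.le⟩
  have hC0 : 0 < 132 * C₀ := by linarith only [hC]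
  have hnpos : (0 : ℝ) < n := by linarith only [hC, hn, hεn]
  have hq : 0 < height κ x / (n : ℝ) := by positivity
  have e0 : (p : ℝ) * (ε / (132 * p * C₀) * n * height κ x) =
      ε / (132 * C₀) * n * height κ x := by
    field_simp
  rw [e0] at h5
  have h6 : ε / 32 * height κ x / n * (∑ j, (finrank K (V j) : ℝ) - p) ≤
      ε / 32 * (height κ x / n) * (2 * n + ν) := by
    have e1 : ε / 32 * (height κ x : ℝ) / n = ε / 32 * (height κ x / n) := by ring
    rw [e1]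
    apply mul_le_mul_of_nonneg_left _ (by positivity)
    linarith only [hcn', h2, hp1]
  have h7 : ε / 32 * (height κ x / n) * (2 * n + ν) =
      1 / 16 * (ε * (height κ x : ℝ)) + ε / 32 * (height κ x / n) * ν := by
    field_simp
    ring
  have h8 : ε / 8 / 2 * (height κ x : ℝ) / n * ν = 2 * (ε / 32 * (height κ x / n) * ν) := by ring
  rw [h8] at h3
  have hεH : 0 < ε * (height κ x : ℝ) := by positivity
  have h9' : ε / 32 * (height κ x / n) * ν ≤ ε / (132 * C₀) * n * height κ x := by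
    linarith only [h3, hE, h5, h6, h7, hεH]
  have h9 : (ε / 32 * (height κ x / n)) * (ν : ℝ) ≤
      (ε / 32 * (height κ x / n)) * (32 / (132 * C₀) * n ^ 2) := by
    have e2 : (ε / 32 * (height κ x / n)) * (32 / (132 * C₀) * (n : ℝ) ^ 2) =
        ε / (132 * C₀) * n * height κ x := by
      field_simp
    rw [e2]
    exact h9'
  have h10 : (ν : ℝ) ≤ 32 / (132 * C₀) * n ^ 2 :=
    le_of_mul_le_mul_left h9 (by positivity)
  intro q hqΛ
  have h11 := h4 q hqΛ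
  set ρ : ℝ := (finrank K (lam 1 (K ∙ q)) : ℝ) with hρ
  have hρ0 : 0 ≤ ρ := Nat.cast_nonneg _
  have hρn : ρ ≤ n + 1 := by
    have := cb_finrank_le (lam 1 (K ∙ q))
    rw [hρ]
    exact_mod_cast this
  have h12 : ρ * (n + 1) - ρ * (ρ - 1) / 2 ≥ ρ * n / 2 := by nlinarith
  have hε1' : 1 ≤ 1 / ε := by
    rw [le_div_iff₀ hε]
    linarith only [hε1]
  have h13 : ρ * n ≤ 64 / (132 * C₀) * n ^ 2 + 70 * (1 / ε) * n := by
    have e3 : (4 : ℝ) / (ε / 8) = 32 * (1 / ε) := by field_simp; norm_num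
    rw [e3] at h11
    have e4 : 64 / (132 * C₀) * (n : ℝ) ^ 2 = 2 * (32 / (132 * C₀) * n ^ 2) := by ring
    rw [e4]
    have h16 : (n : ℝ) ≤ 1 / ε * n := by nlinarith only [hε1']
    nlinarith only [hC, hn, hεn, hcn', h10, h11, h12, h16]
  have h14 : 70 * (1 / ε) ≤ 1 / (132 * C₀) * (n : ℝ) := by
    rw [one_div, one_div, inv_mul_eq_div, le_div_iff₀ hC0]
    have h17 : 70 * ε⁻¹ * (132 * C₀) = ε⁻¹ * (70 * (132 * C₀)) := by ring
    rw [h17, inv_mul_le_iff₀ hε]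
    exact hn
  have h15 : ρ * n ≤ (65 / (132 * C₀) * n) * n := by
    have e5 : (65 / (132 * C₀) * (n : ℝ)) * n =
        64 / (132 * C₀) * n ^ 2 + (1 / (132 * C₀) * n) * n := by ring
    rw [e5]
    nlinarith only [h13, h14]
  exact le_of_mul_le_mul_right h15 hnpos

end

section

variable {κ : Type*} {K : Type u} [Field κ] [IsAlgClosed κ] [CharZero κ] [Field K] [Algebra κ K]
  {n p : ℕ} {x : Fin (n + 1) → K} {d : Fin p → ℕ} {c : ℕ} {C₀ M E ε : ℝ}

/-- the cost of a space with slopes at least `ε H / 8 n` is at most `2 H` (B2). Proof: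
`cba_cost_one` (AB1), unchanged except `cbr_rank_one`. -/
theorem cbr_cost_one (h : IsFF κ K) (hyp : HypR κ x d c C₀ M E ε) (hC : 1000 ≤ C₀)
    (hn : 70 * (132 * C₀) ≤ ε * n) (hcn : c ≤ n)
    (hA : ¬ CaseAP κ x d (ε / (132 * p * C₀)) (ε / 32)) {j₀ : Fin p} (hj : 2 ≤ d j₀)
    {W : Submodule K (EX (n + 1) (d j₀) → K)}
    (hW : HasSl κ (ε / 8 * height κ x / n) (xm (d j₀) x) W) :
    d j₀ * (height κ x : ℝ) - ht κ W ≤ 2 * height κ x := by
  have hε' := hyp.hε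
  have hε1' := hyp.hε1
  have hn0 : (0 : ℝ) ≤ n := Nat.cast_nonneg _
  have hεn : ε * (n : ℝ) ≤ n := by nlinarith only [hε1']
  have hn' : (1000 : ℝ) ≤ n := by nlinarith only [hC, hn, hεn]
  have hH0 := hyp.cb_pos
  have hnpos : (0 : ℝ) < n := by linarith
  have hd2 := hj
  have hrank := cbr_rank_one h hyp hC hn hcn hA hj hW
  have ht0 : 0 < ε / 8 * (height κ x : ℝ) / n := by positivity
  have hMp := hyp.pos
  by_contra hcon
  push Not at hcon
  -- all quotients have slopes at most `M`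
  have hQ : QS κ (lam 2 W) M := qs_of_cost h hyp.ne hMp hyp.slope ht0 hd2 hW (by
    push_cast
    linarith only [hMp, hcon])
  obtain ⟨δ, hδd⟩ : ∃ δ : ℝ, δ = height κ x / (4 * (n + 1)) := ⟨_, rfl⟩
  have hδ : 0 < δ := by rw [hδd]; positivity
  obtain ⟨L, _, _, _, _, _, _, q, hq, -, hht, -, hxq⟩ := maxrank_abs h hMp hQ hδ
  have hL : IsFF κ L := h.of_finite
  have hN : (0 : ℝ) < finrank K L := by exact_mod_cast finrank_pos
  have hyp' := hyp.toL.ext (L := L) h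
  have hΛ := hasSl_lam h hyp.ne hd2 hW
  have hx2 : xm 2 (fun k => algebraMap K L (x k)) ∈ bc L (lam 2 W) := by
    rw [xm_am]
    exact am_mem_bc hΛ.mem
  have hs := cb_slope_one hL hyp'.ne hyp'.slope (hxq _ hx2)
  have hinf : Infinite K := Infinite.of_injective _ (algebraMap κ K).injective
  obtain ⟨q₀, hq₀, hqr⟩ := exists_rank_descent hq
  have hr : (finrank L (lam 1 (L ∙ q)) : ℝ) ≤ 65 / (132 * C₀) * n :=
    le_trans (by exact_mod_cast hqr) (hrank q₀ hq₀)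
  have hH' : (height κ (fun k => algebraMap K L (x k)) : ℝ) = finrank K L * height κ x := by
    exact_mod_cast hL.height_ext (K := K) hyp.ne
  rw [hH'] at hs
  set ρ : ℝ := (finrank L (lam 1 (L ∙ q)) : ℝ) with hρ
  have hρ0 : 0 ≤ ρ := Nat.cast_nonneg _
  have hρn : ρ ≤ n + 1 := by
    have := cb_finrank_le (lam 1 (L ∙ q))
    rw [hρ]
    exact_mod_cast this
  have hMn : M * ρ ≤ 65 / 132 * height κ x := by
    calc M * ρ ≤ M * (65 / (132 * C₀) * n) := mul_le_mul_of_nonneg_left hr hMp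
      _ = 65 / (132 * C₀) * (M * n) := by ring
      _ ≤ 65 / (132 * C₀) * (C₀ * height κ x) := by
          apply mul_le_mul_of_nonneg_left hyp.small
          positivity
      _ = 65 / 132 * height κ x := by field_simp
  have hδρ : ρ * δ ≤ height κ x / 4 := by
    calc ρ * δ ≤ (n + 1) * δ := mul_le_mul_of_nonneg_right hρn hδ.le
      _ = height κ x / 4 := by rw [hδd]; field_simp
  have h1 : (finrank K L : ℝ) * (height κ x) ≤
      finrank K L * (3 / 2 * (M * ρ) + ρ * δ / 2) := by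
    have h2 : (finrank K L : ℝ) * M * (ρ - 1) ≤ finrank K L * M * ρ := by
      have : 0 ≤ (finrank K L : ℝ) * M := mul_nonneg hN.le hMp
      linarith only [this]
    have h3 : 2 * (ht κ (lam 1 (L ∙ q)) : ℝ) ≤ finrank K L * (M * ρ + ρ * δ) := by
      refine hht.trans (le_of_eq ?_)
      ring
    have h4 : (finrank K L : ℝ) * (3 / 2 * (M * ρ) + ρ * δ / 2) =
        finrank K L * (M * ρ + ρ * δ) / 2 + finrank K L * M * ρ := by ring
    rw [h4]
    linarith only [hht, hs, h2]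
  have h2 := le_of_mul_le_mul_left h1 hN
  linarith only [hH0, hMn, hδρ, h2]

/-- the costs in the degree of one block. Proof: `cba_cost_all` (AB1). -/
theorem cbr_cost_all (h : IsFF κ K) (hyp : HypR κ x d c C₀ M E ε) (hC : 1000 ≤ C₀)
    (hn : 70 * (132 * C₀) ≤ ε * n) (hcn : c ≤ n)
    (hA : ¬ CaseAP κ x d (ε / (132 * p * C₀)) (ε / 32)) {j₀ : Fin p}
    {V : Submodule K (EX (n + 1) (d j₀) → K)} (hV : xm (d j₀) x ∈ V) :
    d j₀ * (height κ x : ℝ) - ht κ V ≤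
      2 * height κ x + ε / 8 * height κ x / n * ((finrank K V : ℝ) - 1) := by
  have hε := hyp.hε
  rcases Nat.lt_or_ge (d j₀) 2 with hj | hj
  · have hH := hyp.cb_pos
    have h1 : (0 : ℝ) ≤ ht κ V := by exact_mod_cast ht_nonneg h V
    have h2 : (d j₀ : ℝ) ≤ 2 := by exact_mod_cast hj.le
    have h3 := cb_one_le hyp.ne hV
    have h4 : 0 ≤ ε / 8 * (height κ x : ℝ) / n := by positivity
    have h5 : 0 ≤ ε / 8 * (height κ x : ℝ) / n * ((finrank K V : ℝ) - 1) :=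
      mul_nonneg h4 (by linarith)
    nlinarith only [h1, h5, hH, h2]
  obtain ⟨W, hW⟩ := exists_isSl h (ε / 8 * height κ x / n) (xm (d j₀) x)
  have h1 := cbr_cost_one h hyp hC hn hcn hA hj (cb_hasSl hW)
  have h2 := cb_max h hW hV
  have h3 := cb_one_le hyp.ne hW.mem
  have hH := hyp.cb_pos
  have h4 : 0 ≤ ε / 8 * (height κ x : ℝ) / n := by (clear * - hε hH; positivity)
  nlinarith only [h1, h2, h3, h4]

/-- all ranks are at most `30 p / ε` (B3). Proof: `cba_rank_two` (AB1) with `s := ε / 2`: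
`ε H + ε/4 H' ν - E ≤ 2 p H + ε/8 H' (2 n + ν)` (`H' = H / n`), so `ε/8 H' ν ≤ 2 p H`,
`ν ≤ 16 p n / ε`; the ranks are at most `n / 2000` (`cbr_rank_one`), so
`ρ n (3999 / 4000) ≤ 16 p n / ε + 1 + 8 n / ε + 2 n ≤ 26 p n / ε + 1`; if `30 p / ε < ρ` this is a
contradiction. -/
theorem cbr_rank_two (h : IsFF κ K) (hyp : HypR κ x d c C₀ M E ε) (hC : 1000 ≤ C₀)
    (hn : 70 * (132 * C₀) ≤ ε * n) (hcn : c ≤ n)
    (hA : ¬ CaseAP κ x d (ε / (132 * p * C₀)) (ε / 32)) {j₀ : Fin p} (hj : 2 ≤ d j₀)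
    {W : Submodule K (EX (n + 1) (d j₀) → K)}
    (hW : HasSl κ (ε / 2 * height κ x / n) (xm (d j₀) x) W) :
    ∀ q ∈ lam 2 W, (finrank K (lam 1 (K ∙ q)) : ℝ) ≤ 30 * p / ε := by
  have hε := hyp.hε
  have hε1 := hyp.hε1
  have hn0 : (0 : ℝ) ≤ n := Nat.cast_nonneg _
  have hεn : ε * (n : ℝ) ≤ n := by nlinarith only [hε1]
  have hn' : (1000 : ℝ) ≤ n := by nlinarith only [hC, hn, hεn]
  have hn1 : 1 ≤ n := by
    have : (1 : ℝ) ≤ n := by linarith
    exact_mod_cast this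
  have hcn' : (c : ℝ) ≤ n := by exact_mod_cast hcn
  have hH0 := hyp.cb_pos
  have hnpos : (0 : ℝ) < n := by linarith only [hC, hn, hεn]
  have hp1 : (1 : ℝ) ≤ p := by exact_mod_cast hyp.cb_p
  have hΛ := hasSl_lam h hyp.ne hj hW
  obtain ⟨ν, V, h1, h2, h3, h4⟩ := cbr_rows h hyp hn1 (s := ε / 2) (by positivity) hΛ
  have h5 := cbp_sum (κ := κ) (H := (height κ x : ℝ)) (W := V)
    (μ := ε / 8 * height κ x / n) (K := 2 * height κ x) fun j =>
      cbr_cost_all h hyp hC hn hcn hA (h1 j)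
  have hE : 8 * E ≤ ε * height κ x := hyp.cb_eps (by linarith only [hC, hn]) (by
    have h19 : ((n : ℝ) + 2) ^ 1 ≤ ((n : ℝ) + 2) ^ 19 :=
      pow_le_pow_right₀ (by linarith) (by norm_num)
    rw [pow_one] at h19
    linarith only [hC, hn, hεn, h19])
  have hq : 0 < height κ x / (n : ℝ) := by positivity
  have hε' : 0 < 1 / ε := by positivity
  have hεe : ε * (1 / ε) = 1 := by field_simp
  have h6 : (ε * (height κ x / n)) * (ν : ℝ) ≤
      (ε * (height κ x / n)) * (16 * p * n * (1 / ε)) := by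
    have e1 : (ε * (height κ x / n)) * (16 * p * (n : ℝ) * (1 / ε)) =
        16 * (p * height κ x) := by field_simp
    have e2 : ε / 2 / 2 * (height κ x : ℝ) / n * ν =
        1 / 4 * ((ε * (height κ x / n)) * ν) := by ring
    have e3 : ε / 8 * (height κ x : ℝ) / n * (∑ j, (finrank K (V j) : ℝ) - p) =
        1 / 8 * ((ε * (height κ x / n)) * (∑ j, (finrank K (V j) : ℝ) - p)) := by ring
    have h7 : (ε * (height κ x / n)) * (∑ j, (finrank K (V j) : ℝ) - p) ≤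
        (ε * (height κ x / n)) * (2 * n + ν) :=
      mul_le_mul_of_nonneg_left (by linarith only [hcn', hp1,
          h2]) (by (clear * - hε hH0 hn1; positivity))
    have e4 : (ε * (height κ x / n)) * (2 * (n : ℝ) + ν) =
        2 * (ε * height κ x) + (ε * (height κ x / n)) * ν := by
      field_simp
    rw [e1]
    rw [e2] at h3
    rw [e3] at h5
    rw [e4] at h7
    have hεH : 0 < ε * (height κ x : ℝ) := by positivity
    linarith only [h3, h5, hE, h7, hεH]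
  have h7 : (ν : ℝ) ≤ 16 * p * n * (1 / ε) := le_of_mul_le_mul_left h6 (by positivity)
  -- the maximiser at `ε H / 8 n` contains `W`
  obtain ⟨W₁, hW₁⟩ := exists_isSl h (ε / 8 * height κ x / n) (xm (d j₀) x)
  have hlt : ε / 8 * (height κ x : ℝ) / n < ε / 2 * height κ x / n := by
    apply div_lt_div_of_pos_right _ hnpos
    have hεH : 0 < ε * (height κ x : ℝ) := by positivity
    linarith only [hεH]
  have hWW := hW.le_isSl h hlt hW₁
  intro q hqΛ
  have h8 := cbr_rank_one h hyp hC hn hcn hA hj (cb_hasSl hW₁) q (lam_mono hWW hqΛ)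
  have h9 := h4 q hqΛ
  by_contra hcon
  push Not at hcon
  set ρ : ℝ := (finrank K (lam 1 (K ∙ q)) : ℝ) with hρ
  obtain ⟨r, hr⟩ : ∃ r : ℝ, r = 1 / ε := ⟨_, rfl⟩
  have hr1 : 1 ≤ r := by
    rw [hr, le_div_iff₀ hε]
    linarith only [hε1]
  have hρ1 : 30 * (p : ℝ) * r ≤ ρ := by
    have : 30 * (p : ℝ) / ε = 30 * (p : ℝ) * r := by rw [hr]; ring
    linarith only [hcon, this]
  have h10 : ρ ≤ n / 2000 := by
    refine h8.trans ?_
    have h11 : 65 / (132 * C₀) ≤ 1 / 2000 := by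
      rw [div_le_div_iff₀ (by linarith only [hC]) (by norm_num)]
      linarith only [hC]
    calc 65 / (132 * C₀) * (n : ℝ) ≤ 1 / 2000 * n := by gcongr
      _ = n / 2000 := by ring
  have e5 : (4 : ℝ) / (ε / 2) = 8 * r := by rw [hr]; field_simp; norm_num
  rw [e5] at h9
  rw [← hr] at h7
  have hpr : (1 : ℝ) ≤ p * r := by nlinarith only [hp1, hr1]
  have hrp : r ≤ p * r := by nlinarith only [hr, hp1, hε']
  have hprn : (n : ℝ) ≤ p * r * n := by nlinarith only [hpr]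
  have hrpn : r * n ≤ p * r * n := by nlinarith only [hrp]
  have h12 : 16 * (p : ℝ) * n * r + (1 + 8 * r * n) + n + n ≤ 26 * (p * r * n) + 1 := by
    have : 16 * (p : ℝ) * n * r = 16 * (p * r * n) := by ring
    rw [this]
    linarith only [hprn, hrpn]
  have hρ0 : 0 ≤ ρ := Nat.cast_nonneg _
  have h13 : ρ * (n + 1) - ρ * (ρ - 1) / 2 ≥ ρ * n * (3999 / 4000) := by nlinarith only [hC, hn,
      hεn, hcn', h7, h9, hρ1, hpr, hprn, hrpn, h10]
  have h14 : ρ * n ≥ 30 * (p * r * n) := by nlinarith only [hC, hn, hεn, hcn', h7, h9, hprn, hrpn,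
      h13, hρ1]
  nlinarith only [hC, hn, hεn, hcn', h7, h9, hprn, hrpn, h13, h14]

end

end Pool.Agent.Lib.MP_44a246_ntVQ
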