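import Mathlib
import Pool.Agent.Lib.MP_44a246_ntVQ.VQ04
import Pool.Agent.Lib.MP_44a246_ntVT.VA6

/-!
# Sharp Vojta inequality with linear forms: the plane curve
-/

namespace Pool.Agent.Lib.MP_44a246_ntVQ

open Pool.Agent.Lib.MP_44a246_nt
open Pool.Agent.Lib.MP_44a246_ntL
open Pool.Agent.Lib.MP_44a246_ntS
open Pool.Agent.Lib.MP_44a246_ntF
open Pool.Agent.Lib.MP_44a246_ntO
open Pool.Agent.Lib.MP_44a246_ntX
open Pool.Agent.Lib.MP_44a246_ntSH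
open Pool.Agent.Lib.MP_44a246_ntVT
open Pool.Agent.Lib.MP_e52354_nt
open WithZero Module

universe u v

/-- **The plane curve of small height.** Proof: `plane_of_hypPL` (AC06), `θ = T / n` with `T ≥ C₇`,
`n ≥ 1000000 T / ε`. -/
theorem plane_of_hypR (p c : ℕ) (C₀ ε : ℝ) (hC : 1000 ≤ C₀) (hε : 0 < ε) (hε1 : ε ≤ 1) :
    ∃ C₈ : ℝ, 0 < C₈ ∧
    ∀ (n : ℕ) (d : Fin p → ℕ), C₈ ≤ n →
    ∀ (κ : Type u) (L : Type v) [Field κ] [IsAlgClosed κ] [CharZero κ] [Field L] [CharZero L]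
      [Algebra κ L] (_ : IsFF κ L) (X : DatP κ (L := L) n) (M E : ℝ),
      HypR κ X.x d c C₀ M E ε → (X.Δ : ℝ) ≤ E →
      ∃ (a : ℕ) (A : MvPolynomial (Fin 3) L), (a : ℝ) ≤ 1664 * n / ε ∧ A ≠ 0 ∧
        A.IsHomogeneous a ∧
        MvPolynomial.eval X.p A = 0 ∧ (polyHeight κ A : ℝ) * n ^ 2 ≤ C₈ * height κ X.x := by
  rcases Nat.eq_zero_or_pos p with hp0 | hp
  · subst hp0
    refine ⟨1, one_pos, fun n d _ κ L _ _ _ _ _ _ h X M E hyp _ => ?_⟩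
    exact absurd hyp.cb_p (by norm_num)
  have hp1 : (1 : ℝ) ≤ p := by exact_mod_cast hp
  have hC0 : (0 : ℝ) < C₀ := by linarith
  have hKC : C₀ ≤ p * C₀ := by nlinarith
  obtain ⟨C₇, h7, hA⟩ := caseAPsR.{u, v} p c C₀ ε hC hε hε1
  obtain ⟨n₁, hB⟩ := caseBR.{u, v} p c C₀ ε hC hε hε1
  obtain ⟨Y, hY, hP⟩ := planeCurveG.{u, v} (p * C₀) ε (by linarith) hε hε1
  obtain ⟨T, hT⟩ : ∃ T : ℝ, T = C₇ + 64 := ⟨_, rfl⟩
  have hT0 : 0 < T := by rw [hT]; positivity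
  have hn₁ : (0 : ℝ) ≤ n₁ := Nat.cast_nonneg _
  have hTε : 1000000 * T ≤ 1000000 * T / ε := by
    rw [le_div_iff₀ hε]
    nlinarith
  refine ⟨Y + n₁ + 1000000 * T / ε, by positivity,
    fun n d hn κ L _ _ _ _ _ _ h X M E hyp hΔ => ?_⟩
  have hnT : 1000000 * T / ε ≤ n := by linarith
  have hn1 : n₁ ≤ n := by
    have : (n₁ : ℝ) ≤ n := by linarith
    exact_mod_cast this
  have hnpos : (0 : ℝ) < n := by linarith
  have hH := hyp.toL.H_pos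
  have hθn : T / n * n = T := by field_simp
  have hcase := hB n d hn1 κ L h X.x M E hyp
  obtain ⟨j, s, W, hs1, hs2, hW, hdj, hW2⟩ := hA n d (T / n) (by linarith) (by positivity)
    (by rw [hθn]; linarith) κ L h X.x M E hyp hcase
  obtain ⟨a, A, ha, hA0, hA1, hA2, hA3⟩ := hP n (d j) (T / n) (by linarith)
    (by positivity) (by
      rw [div_le_iff₀ hε] at hnT
      rw [div_le_iff₀ hnpos]
      linarith) κ L h X M E
    (hyp.toL.mono hKC) hΔ hdj s W hs1 (hs2.trans hKC) hW hW2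
  refine ⟨a, A, ha, hA0, hA1, hA2, ?_⟩
  have h1 : (polyHeight κ A : ℝ) * n ^ 2 = (polyHeight κ A : ℝ) * n * n := by ring
  rw [h1]
  have h2 : (polyHeight κ A : ℝ) * n * n ≤ 53 * (T / n) * height κ X.x * n :=
    mul_le_mul_of_nonneg_right hA3 hnpos.le
  refine h2.trans ?_
  have h3 : 53 * (T / n) * (height κ X.x : ℝ) * n = 53 * T * height κ X.x := by field_simp
  rw [h3]
  exact mul_le_mul_of_nonneg_right (by linarith) hH.le

end Pool.Agent.Lib.MP_44a246_ntVQ
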