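import Mathlib
import Pool.Agent.Lib.MP_44a246_ntVT.VC4
import Pool.Agent.Lib.MP_44a246_ntVT.VC5a

/-!
# Sharp Vojta inequality with linear forms: the quotients of the space of the rows of the point
-/

namespace Pool.Agent.Lib.MP_44a246_ntVQ

open Pool.Agent.Lib.MP_44a246_nt
open Pool.Agent.Lib.MP_44a246_ntL
open Pool.Agent.Lib.MP_44a246_ntS
open Pool.Agent.Lib.MP_44a246_ntF
open Pool.Agent.Lib.MP_44a246_ntO
open Pool.Agent.Lib.MP_44a246_ntA
open Pool.Agent.Lib.MP_44a246_ntSH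
open Pool.Agent.Lib.MP_44a246_ntVT
open Pool.Agent.Lib.MP_e52354_nt
open WithZero Module

universe u

section

variable {κ M : Type*} [Field κ] [IsAlgClosed κ] [CharZero κ] [Field M] [Algebra κ M]
  {σ S : Type*} [Fintype σ] [Fintype S] [DecidableEq S]

omit [Fintype σ] in
theorem jh_mem_hat_iff {c : S → σ → M} {f : S → M} (hf : ∀ s, f s ≠ 0)
    {B : Submodule M (σ → M)} {u : σ → M} : jh M σ S u ∈ hat c f B ↔ u ∈ B := by
  refine ⟨fun hu => ?_, fun hu => jh_mem_hat c f hu⟩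
  obtain ⟨v, hv, w, hw, hvw⟩ := Submodule.mem_sup.1 hu
  obtain ⟨b, hb, rfl⟩ := hw
  have h1 : jh M σ S (u - b) ∈ V0 c f := by
    rw [map_sub, ← hvw, add_sub_cancel_right]
    exact hv
  have h2 := jh_mem_V0 hf h1
  rw [sub_eq_zero] at h2
  rw [h2]
  exact hb

theorem ht_hat_le (h : IsFF κ M) (c : S → σ → M) (f : S → M) (hf : ∀ s, f s ≠ 0)
    (B : Submodule M (σ → M)) : ht κ (hat c f B) ≤ ht κ B + ht κ (V0 c f) := by
  classical
  obtain ⟨T, hT⟩ : ∃ T : Matrix (σ ⊕ S) σ M,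
      T = Matrix.of (Sum.elim (fun i j => if i = j then 1 else 0) (fun _ _ => 0)) := ⟨_, rfl⟩
  have h1 := ht_mapw h (jh M σ S) (fun _ => T) (τ := fun _ => 0)
    (by rw [Function.support_fun_zero]; exact Set.finite_empty)
    (fun w k m => by
      rw [exp_zero, hT]
      rcases k with k | k
      · show w.1 (if k = m then 1 else 0) ≤ 1
        split_ifs
        · rw [map_one]
        · rw [map_zero]
          exact zero_le
      · show w.1 0 ≤ 1
        rw [map_zero]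
        exact zero_le) (A := ⊥) (B := B) (A' := V0 c f) (fun w b _ => by
      funext k
      rw [hT]
      rcases k with k | k
      · show ∑ m, (if k = m then 1 else 0) * b m = b k
        rw [Finset.sum_eq_single k]
        · rw [if_pos rfl, one_mul]
        · intro m _ hm
          rw [if_neg (Ne.symm hm), zero_mul]
        · intro h0
          exact absurd (Finset.mem_univ _) h0
      · show ∑ m, 0 * b m = 0
        exact Finset.sum_eq_zero fun m _ => zero_mul _) bot_le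
    (by rw [Submodule.map_bot]; exact bot_le) (fun b _ hb => by
      rw [jh_mem_V0 hf hb]
      exact Submodule.zero_mem _)
  have h2 : V0 c f ⊔ B.map (jh M σ S) = hat c f B := rfl
  rw [h2, finsum_zero, zero_mul] at h1
  have h3 := ht_nonneg h (⊥ : Submodule M (σ → M))
  linarith

end

section

variable {κ K M : Type*} [Field κ] [IsAlgClosed κ] [CharZero κ] [Field K] [Algebra κ K]
  [Field M] [Algebra κ M] [Algebra K M] [IsScalarTower κ K M] [FiniteDimensional K M]

open Classical in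
/-- **The height of the hat space of `K₀ ⊔ U`**, as `ht_hat_U` (VC4b). -/
theorem ht_hat_sup (h : IsFF κ K) {σ E₁ : Type*} [Fintype σ] [Fintype E₁]
    {S : Finset (Place κ K)} {ρ : Place κ K → ℕ} {cc : Place κ K → σ → κ}
    (hcc : ∀ v ∉ S, cc v = 0) {f : S → M} (hf : ∀ s, f s ≠ 0)
    (hfw : ∀ (s : S) (w : Place κ M), below K w = s.1 →
      w.1 (f s) ≤ exp (-((ramIdx K w.1 : ℤ) * ρ s.1)))
    {G : Matrix σ E₁ K} {B : Submodule K (E₁ → K)} {U : Submodule K (σ → K)}
    (hU : U = B.map G.mulVecLin) {μ : Place κ K → ℤ} (hμ : (Function.support μ).Finite)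
    (hG : ∀ v : Place κ K, ∃ (Gv : Matrix σ E₁ K) (α : E₁ → K),
      (∀ s i, v.1 (Gv s i) ≤ exp (μ v)) ∧ (v ∈ S → ∀ i, v.1 (α i) ≤ exp (μ v + ρ v)) ∧
        ∀ b ∈ B, ∀ s, Gv.mulVec b s + algebraMap κ K (cc v s) * ∑ i, α i * b i =
          G.mulVec b s) (K₀ : Submodule K (σ → K)) :
    ht κ (hat (fun (s : S) i => algebraMap κ M (cc s.1 i)) f (bc M (K₀ ⊔ U))) ≤
      finrank K M * ht κ B +
        ht κ (hat (fun (s : S) i => algebraMap κ M (cc s.1 i)) f (bc M K₀)) +
        ((finrank K ↥(K₀ ⊔ U) : ℤ) - finrank K K₀) * (finrank K M * ∑ᶠ v, μ v) := by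
  classical
  have hM : IsFF κ M := h.of_finite
  obtain ⟨c, hc⟩ : ∃ c : S → σ → M, c = fun s i => algebraMap κ M (cc s.1 i) := ⟨_, rfl⟩
  rw [← hc]
  choose Gv α hG1 hG2 hG3 using hG
  obtain ⟨T, hT⟩ : ∃ T : (E₁ → M) →ₗ[M] (σ ⊕ S → M),
      T = (jh M σ S).comp (G.map (algebraMap K M)).mulVecLin := ⟨_, rfl⟩
  have hTb : ∀ b, T b = jh M σ S ((G.map (algebraMap K M)).mulVec b) := fun b => by
    rw [hT, LinearMap.comp_apply, Matrix.mulVecLin_apply]
  obtain ⟨Tw, hTw⟩ : ∃ Tw : Place κ M → Matrix (σ ⊕ S) E₁ M, Tw = fun w =>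
      Matrix.of (Sum.elim (fun s i => algebraMap K M (Gv (below K w) s i))
        (fun (s : S) i => if s.1 = below K w then f s * algebraMap K M (α (below K w) i)
          else 0)) := ⟨_, rfl⟩
  have hTwb : ∀ w b, (Tw w).mulVec b = Sum.elim
      (((Gv (below K w)).map (algebraMap K M)).mulVec b)
      (fun s : S => if s.1 = below K w then
        f s * ∑ i, algebraMap K M (α (below K w) i) * b i else 0) := by
    intro w b
    funext s
    rw [hTw]
    rcases s with s | s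
    · rfl
    · show ∑ i, (if s.1 = below K w then f s * algebraMap K M (α (below K w) i) else 0) * b i =
        if s.1 = below K w then f s * ∑ i, algebraMap K M (α (below K w) i) * b i else 0
      split_ifs
      · rw [Finset.mul_sum]
        exact Finset.sum_congr rfl fun i _ => by ring
      · exact Finset.sum_eq_zero fun i _ => zero_mul _
  obtain ⟨hfin, hsum⟩ := finsum_below (L := M) h hμ
  have hTw1 : ∀ (w : Place κ M) k m, w.1 (Tw w k m) ≤
      exp ((ramIdx K w.1 : ℤ) * μ (below K w)) := by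
    intro w k m
    rw [hTw]
    rcases k with s | s
    · exact below_le (hG1 _ s m)
    · show w.1 (if s.1 = below K w then f s * algebraMap K M (α (below K w) m) else 0) ≤ _
      split_ifs with hs
      · rw [map_mul]
        have h1 := hfw s w hs.symm
        have h2 : w.1 (algebraMap K M (α (below K w) m)) ≤
            exp ((ramIdx K w.1 : ℤ) * (μ (below K w) + ρ (below K w))) :=
          below_le (hG2 _ (by rw [← hs]; exact s.2) m)
        refine (mul_le_mul' h1 h2).trans (le_of_eq ?_)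
        rw [← exp_add, hs]
        congr 1
        ring
      · rw [map_zero]
        exact zero_le
  have hTw2 : ∀ w, ∀ b ∈ bc M B, (Tw w).mulVec b - T b ∈ hat c f (bc M K₀) := by
    intro w b hb
    refine V0_le_hat c f _ ?_
    have h1 := fun s => bc_identity (M := M) (c := fun s => algebraMap κ K (cc (below K w) s))
      (hG3 (below K w)) hb s
    by_cases hw : below K w ∈ S
    · have h2 : (Tw w).mulVec b - T b =
          (∑ i, algebraMap K M (α (below K w) i) * b i) • hv c f ⟨below K w, hw⟩ := by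
        rw [hTwb, hTb]
        funext s
        rcases s with s | s
        · simp only [Pi.sub_apply, Sum.elim_inl, jh_inl, Pi.smul_apply, hv_inl, smul_eq_mul]
          rw [← h1 s, hc]
          simp only
          rw [← IsScalarTower.algebraMap_apply]
          ring
        · simp only [Pi.sub_apply, Sum.elim_inr, jh_inr, Pi.smul_apply, hv_inr, smul_eq_mul]
          by_cases hs : s.1 = below K w
          · have hs' : s = ⟨below K w, hw⟩ := Subtype.ext hs
            subst hs'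
            rw [if_pos rfl, Pi.single_eq_same, sub_zero, mul_comm]
          · rw [if_neg hs, Pi.single_eq_of_ne (fun h0 => hs (by rw [h0])), mul_zero, sub_zero]
      rw [h2]
      exact Submodule.smul_mem _ _ (Submodule.subset_span ⟨_, rfl⟩)
    · have h2 : (Tw w).mulVec b - T b = 0 := by
        rw [hTwb, hTb]
        funext s
        rcases s with s | s
        · simp only [Pi.sub_apply, Sum.elim_inl, jh_inl, Pi.zero_apply]
          rw [← h1 s, hcc _ hw]
          simp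
        · simp only [Pi.sub_apply, Sum.elim_inr, jh_inr, Pi.zero_apply]
          rw [if_neg (fun h0 => hw (by rw [← h0]; exact s.2)), sub_zero]
      rw [h2]
      exact Submodule.zero_mem _
  obtain ⟨A, hA⟩ : ∃ A : Submodule M (E₁ → M),
      A = bc M B ⊓ (bc M K₀).comap (G.map (algebraMap K M)).mulVecLin := ⟨_, rfl⟩
  have hAB : A ≤ bc M B := by rw [hA]; exact inf_le_left
  have hAT : A.map T ≤ hat c f (bc M K₀) := by
    rintro _ ⟨a, ha, rfl⟩
    rw [hA] at ha
    rw [hTb]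
    exact jh_mem_hat c f ha.2
  have hinj : ∀ b ∈ bc M B, T b ∈ hat c f (bc M K₀) → b ∈ A := by
    intro b hb hb'
    rw [hTb] at hb'
    have h0 : (G.map (algebraMap K M)).mulVec b ∈ bc M K₀ := (jh_mem_hat_iff hf).1 hb'
    rw [hA]
    exact ⟨hb, h0⟩
  have h1 := ht_mapw_mod hM T Tw hfin hTw1 hTw2 hAB hAT hinj
  have h2 := finrank_sup_map hAB T hAT hinj
  have h3 : hat c f (bc M K₀) ⊔ (bc M B).map T = hat c f (bc M (K₀ ⊔ U)) := by
    unfold hat
    rw [bc_sup, Submodule.map_sup, hU, bc_map, hT, Submodule.map_comp, sup_assoc]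
  rw [h3] at h1 h2
  rw [finrank_hat hf, finrank_hat hf, finrank_bc, finrank_bc] at h2
  have hle : finrank M A ≤ finrank M (bc M B) := Submodule.finrank_mono hAB
  have h4 : ((finrank M (bc M B) : ℤ) - finrank M A) =
      (finrank K ↥(K₀ ⊔ U) : ℤ) - finrank K K₀ := by omega
  rw [h4, hsum, ht_bc h] at h1
  have h5 := ht_nonneg hM A
  have h7 : (finrank K M : ℤ) * (∑ᶠ v, μ v) * ((finrank K ↥(K₀ ⊔ U) : ℤ) - finrank K K₀) =
      ((finrank K ↥(K₀ ⊔ U) : ℤ) - finrank K K₀) * (finrank K M * ∑ᶠ v, μ v) := by ring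
  linarith

end

/-- **The height of the quotients of the space of the rows of the point**, with constant vectors
modulo the ramification. -/
theorem ht_quot_hat {κ : Type*} {K : Type u} [Field κ] [IsAlgClosed κ] [CharZero κ] [Field K]
    [Algebra κ K] (h : IsFF κ K) {σ E₁ : Type*} [Fintype σ] [Fintype E₁]
    (S : Finset (Place κ K)) (ρ : Place κ K → ℕ) (cc : Place κ K → σ → κ)
    (hcc : ∀ v ∉ S, cc v = 0)
    {G : Matrix σ E₁ K} {B : Submodule K (E₁ → K)} {U₁ U : Submodule K (σ → K)}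
    (hU₁ : U₁ = B.map G.mulVecLin) {k : ℕ} {r : Fin k → σ → K}
    (hU : U = U₁ ⊔ Submodule.span K (Set.range r))
    {μ : Place κ K → ℤ} {δ : Place κ K → ℕ} (hμ : (Function.support μ).Finite)
    (hδ : (Function.support δ).Finite)
    (hG : ∀ v : Place κ K, ∃ (Gv : Matrix σ E₁ K) (α : E₁ → K),
      (∀ s i, v.1 (Gv s i) ≤ exp (μ v)) ∧ (v ∈ S → ∀ i, v.1 (α i) ≤ exp (μ v + ρ v)) ∧
        ∀ b ∈ B, ∀ s, Gv.mulVec b s + algebraMap κ K (cc v s) * ∑ i, α i * b i = G.mulVec b s)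
    (hr : ∀ (v : Place κ K) i, ∃ u ∈ U₁, ∃ β : K,
      (∀ s, v.1 (r i s - u s - algebraMap κ K (cc v s) * β) ≤ exp (δ v : ℤ)) ∧
        (v ∈ S → v.1 β ≤ exp ((δ v : ℤ) + ρ v))) {K₀ : Submodule K (σ → K)} (hK₀ : K₀ ≤ U) :
    (ht κ U : ℝ) ≤ ht κ K₀ + ht κ B +
      ((finrank K ↥(K₀ ⊔ U₁) : ℝ) - finrank K K₀) * ((∑ᶠ v, μ v : ℤ) : ℝ) +
        k * ((∑ᶠ v, (δ v : ℤ) : ℤ) : ℝ) + ∑ v ∈ S, (ρ v : ℝ) := by
  classical
  obtain ⟨X, hX⟩ : ∃ X : ℝ, X = (ht κ U : ℝ) := ⟨_, rfl⟩
  obtain ⟨Y, hY⟩ : ∃ Y : ℝ, Y = ht κ K₀ + ht κ B +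
      ((finrank K ↥(K₀ ⊔ U₁) : ℝ) - finrank K K₀) * ((∑ᶠ v, μ v : ℤ) : ℝ) +
        k * ((∑ᶠ v, (δ v : ℤ) : ℤ) : ℝ) + ∑ v ∈ S, (ρ v : ℝ) := ⟨_, rfl⟩
  rw [← hX, ← hY]
  -- with an error `card S * ε`
  have key : ∀ ε : ℝ, 0 < ε → X ≤ Y + S.card * ε := by
    intro ε hε
    obtain ⟨M, iF, iA, iB, iS, iD, iG, f, hf, hfw, hfh⟩ := exists_roots h S ρ hε
    have hM : IsFF κ M := h.of_finite
    have h1 := ht_hat_sup h hcc hf hfw hU₁ hμ hG K₀
    have h1' := ht_hat_rows (M := M) (U₁ := K₀ ⊔ U₁) (r := r) h hcc hfw hδ fun v i => by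
      obtain ⟨u, hu, β, hβ⟩ := hr v i
      exact ⟨u, Submodule.mem_sup_right hu, β, hβ⟩
    have e1 : K₀ ⊔ U₁ ⊔ Submodule.span K (Set.range r) = U := by
      rw [sup_assoc, ← hU]
      exact sup_eq_right.2 hK₀
    rw [e1] at h1'
    have h2 := ht_hat_le hM (fun (s : S) i => algebraMap κ M (cc s.1 i)) f hf (bc M K₀)
    rw [ht_bc h] at h2
    have h2' := ht_V0_le hM (fun (s : S) i => cc s.1 i) hf
      (r := fun s => height κ ![1, f s]) fun s => le_rfl
    have h3 := ht_le_hat hM (fun (s : S) i => algebraMap κ M (cc s.1 i)) hf (bc M U)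
    rw [ht_bc h] at h3
    have hN : (0 : ℝ) < finrank K M := by exact_mod_cast Module.finrank_pos (R := K) (M := M)
    have h4 : ((∑ s, height κ ![1, f s] : ℤ) : ℝ) ≤
        finrank K M * (∑ v ∈ S, (ρ v : ℝ) + S.card * ε) := by
      push_cast
      calc ∑ s, (height κ ![1, f s] : ℝ) ≤ ∑ s : S, (finrank K M : ℝ) * (ρ s.1 + ε) :=
            Finset.sum_le_sum fun s _ => hfh s
        _ = finrank K M * (∑ v ∈ S, (ρ v : ℝ) + S.card * ε) := by
          rw [← Finset.mul_sum, Finset.sum_add_distrib, Finset.sum_const, Finset.card_univ,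
            Fintype.card_coe, nsmul_eq_mul, Finset.sum_coe_sort S fun v => (ρ v : ℝ)]
    have h5Z : (finrank K M : ℤ) * ht κ U ≤ finrank K M * ht κ B +
        (finrank K M * ht κ K₀ + ∑ s, height κ ![1, f s]) +
        ((finrank K ↥(K₀ ⊔ U₁) : ℤ) - finrank K K₀) * (finrank K M * ∑ᶠ v, μ v) +
        k * (finrank K M * ∑ᶠ v, (δ v : ℤ)) := by linarith
    have h5R : (finrank K M : ℝ) * ht κ U ≤ finrank K M * ht κ B +
        (finrank K M * ht κ K₀ + ((∑ s, height κ ![1, f s] : ℤ) : ℝ)) +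
        ((finrank K ↥(K₀ ⊔ U₁) : ℝ) - finrank K K₀) *
          (finrank K M * ((∑ᶠ v, μ v : ℤ) : ℝ)) +
        k * (finrank K M * ((∑ᶠ v, (δ v : ℤ) : ℤ) : ℝ)) := by exact_mod_cast h5Z
    have h5 : (finrank K M : ℝ) * X ≤ finrank K M * (Y + S.card * ε) := by
      rw [hX, hY]
      refine h5R.trans ?_
      have h6 : (finrank K M : ℝ) * (ht κ K₀ + ht κ B +
          ((finrank K ↥(K₀ ⊔ U₁) : ℝ) - finrank K K₀) * ((∑ᶠ v, μ v : ℤ) : ℝ) +
          k * ((∑ᶠ v, (δ v : ℤ) : ℤ) : ℝ) + ∑ v ∈ S, (ρ v : ℝ) + S.card * ε) =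
          finrank K M * ht κ B + (finrank K M * ht κ K₀ +
            finrank K M * (∑ v ∈ S, (ρ v : ℝ) + S.card * ε)) +
          ((finrank K ↥(K₀ ⊔ U₁) : ℝ) - finrank K K₀) *
            (finrank K M * ((∑ᶠ v, μ v : ℤ) : ℝ)) +
          k * (finrank K M * ((∑ᶠ v, (δ v : ℤ) : ℤ) : ℝ)) := by ring
      rw [h6]
      linarith
    exact le_of_mul_le_mul_left h5 hN
  refine le_of_forall_pos_le_add fun ε hε => ?_
  have h1 := key (ε / (S.card + 1)) (by positivity)
  refine h1.trans (add_le_add_right ?_ Y)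
  rw [mul_div_assoc', div_le_iff₀ (by positivity)]
  have : (0 : ℝ) ≤ S.card := Nat.cast_nonneg _
  nlinarith

section

variable {κ : Type*} {K : Type u} [Field κ] [IsAlgClosed κ] [CharZero κ] [Field K] [Algebra κ K]
  {n c : ℕ} {σ : Type*} [Fintype σ] (X : RowT κ (L := K) n c σ)

/-- **The height of the quotients of the space of the rows of the point.** -/
theorem ht_quot_T1 (h : IsFF κ K) {K₀ : Submodule K (σ → K)} (hK₀ : K₀ ≤ X.U) :
    (ht κ X.U : ℝ) ≤ ht κ K₀ + height κ X.x +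
      ((finrank K ↥(K₀ ⊔ U1 X.x X.D X.A) : ℝ) - finrank K K₀) * (height κ X.x + X.Δ') +
      c * X.Δ' + X.R := by
  classical
  have hμf : (Function.support fun v : Place κ K => (X.δ' v : ℤ)).Finite :=
    X.hδ'.subset fun w hw => by
      rw [Function.mem_support] at hw ⊢
      exact fun h => hw (by rw [h, Nat.cast_zero])
  obtain ⟨μ, hμ⟩ : ∃ μ : Place κ K → ℤ, μ = fun v => log (vmax v.1 X.x) + X.δ' v := ⟨_, rfl⟩
  have hμfin : (Function.support μ).Finite := by
    rw [hμ]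
    exact ((h.vmax_support X.hx).union hμf).subset (Function.support_add _ _)
  obtain ⟨G, hG1, hG2⟩ := X.exists_linU
  have key := ht_quot_hat h X.S X.ρ X.cc X.hcc (U := X.U) hG1 X.hU1 hμfin X.hδ'
    (fun v => by
      obtain ⟨Gv, α, h1, h2, h3⟩ := hG2 v
      refine ⟨Gv, α, fun s i => ?_, fun hv i => ?_, h3⟩
      · rw [hμ]
        exact h1 s i
      · rw [hμ]
        exact h2 hv i) X.hrow hK₀
  have hsum : ∑ᶠ v, μ v = height κ X.x + X.Δ' := by
    rw [hμ, finsum_add_distrib (h.vmax_support X.hx) hμf]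
    rfl
  rw [hsum, ht_orth h, ht_single h X.hx] at key
  have e2 : (∑ v ∈ X.S, (X.ρ v : ℝ)) = X.R := by
    unfold RowT.R
    push_cast
    rfl
  have e3 : ((∑ᶠ v, (X.δ' v : ℤ) : ℤ) : ℝ) = X.Δ' := rfl
  rw [e2, e3] at key
  push_cast at key
  exact key

/-- **The height of the space of the rows of the point.** -/
theorem ht_U_T (h : IsFF κ K) :
    (ht κ X.U : ℝ) ≤ (n + 1) * height κ X.x + (n + c) * X.Δ' + X.R := by
  have h1 := ht_quot_T1 X h (bot_le : ⊥ ≤ X.U)
  rw [bot_sup_eq, finrank_bot, ht_bot h] at h1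
  have h2 : (finrank K (U1 X.x X.D X.A) : ℝ) ≤ n := by
    exact_mod_cast finrank_U1_le X.hx X.D X.A
  have hh : (0 : ℝ) ≤ height κ X.x := by exact_mod_cast h.height_nonneg X.hx
  have hΔ : (0 : ℝ) ≤ X.Δ' := by exact_mod_cast X.Δ'_nonneg
  have h3 := mul_le_mul_of_nonneg_right h2 (add_nonneg hh hΔ)
  push_cast at h1
  linarith

/-- **The height of the quotients of the space of the rows of the point**, by dimensions. -/
theorem ht_quot_T (h : IsFF κ K) {K₀ : Submodule K (σ → K)} (hK₀ : K₀ ≤ X.U) :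
    (ht κ X.U : ℝ) ≤ ht κ K₀ + height κ X.x * ((finrank K X.U : ℝ) - finrank K K₀ + 1) +
      (n + c) * X.Δ' + X.R := by
  refine (ht_quot_T1 X h hK₀).trans ?_
  have hU1 : U1 X.x X.D X.A ≤ X.U := by rw [X.hU1]; exact le_sup_left
  have h3 : finrank K ↥(K₀ ⊔ U1 X.x X.D X.A) ≤ finrank K X.U :=
    Submodule.finrank_mono (sup_le hK₀ hU1)
  have h4 : finrank K ↥(K₀ ⊔ U1 X.x X.D X.A) ≤ finrank K K₀ + n :=
    (Submodule.finrank_add_le_finrank_add_finrank _ _).trans
      (Nat.add_le_add_left (finrank_U1_le X.hx X.D X.A) _)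
  have h5 : finrank K K₀ ≤ finrank K ↥(K₀ ⊔ U1 X.x X.D X.A) := Submodule.finrank_mono le_sup_left
  have h3R : (finrank K ↥(K₀ ⊔ U1 X.x X.D X.A) : ℝ) ≤ finrank K X.U := by exact_mod_cast h3
  have h4R : (finrank K ↥(K₀ ⊔ U1 X.x X.D X.A) : ℝ) ≤ finrank K K₀ + n := by exact_mod_cast h4
  have h5R : (finrank K K₀ : ℝ) ≤ finrank K ↥(K₀ ⊔ U1 X.x X.D X.A) := by exact_mod_cast h5
  have hh : (0 : ℝ) ≤ height κ X.x := by exact_mod_cast h.height_nonneg X.hx
  have hΔ : (0 : ℝ) ≤ X.Δ' := by exact_mod_cast X.Δ'_nonneg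
  obtain ⟨a, ha⟩ : ∃ a : ℝ, a = (finrank K ↥(K₀ ⊔ U1 X.x X.D X.A) : ℝ) - finrank K K₀ :=
    ⟨_, rfl⟩
  rw [← ha]
  have ha0 : 0 ≤ a := by linarith
  have han : a ≤ n := by linarith
  have ham : a ≤ (finrank K X.U : ℝ) - finrank K K₀ := by linarith
  have h6 := mul_le_mul_of_nonneg_right han hΔ
  have h7 := mul_le_mul_of_nonneg_right ham hh
  linarith

end

end Pool.Agent.Lib.MP_44a246_ntVQ
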