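import Mathlib
import Pool.Agent.Lib.MP_44a246_ntSQ.SQ09
import Pool.Agent.Lib.MP_44a246_ntVQ.VQ01
import Pool.Agent.Lib.MP_44a246_ntVQ.VQ06

/-!
# Sharp Vojta inequality with linear forms: the rows of the point, graded pieces
-/

namespace Pool.Agent.Lib.MP_44a246_ntVQ

open Pool.Agent.Lib.MP_44a246_nt
open Pool.Agent.Lib.MP_44a246_ntL
open Pool.Agent.Lib.MP_44a246_ntS
open Pool.Agent.Lib.MP_44a246_ntF
open Pool.Agent.Lib.MP_44a246_ntO
open Pool.Agent.Lib.MP_44a246_ntA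
open Pool.Agent.Lib.MP_44a246_ntK (piece mem_piece ht_piece)
open Pool.Agent.Lib.MP_44a246_ntSH
open Pool.Agent.Lib.MP_44a246_ntVT
open Pool.Agent.Lib.MP_44a246_ntSQ (prZ prZ_mulVec linB)
open Pool.Agent.Lib.MP_e52354_nt
open WithZero Module

universe u

/-- **The rows of the point, graded pieces**, for an arbitrary space of rows. -/
theorem rows0G_of_space {κ L : Type*} [Field κ] [IsAlgClosed κ] [CharZero κ] [Field L]
    [Algebra κ L] (h : IsFF κ L) {n c p : ℕ} {d : Fin p → ℕ} {x : Fin (n + 1) → L} (hx : x ≠ 0)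
    {U : Submodule L ((Σ j : Fin p, EX (n + 1) (d j)) → L)} (hfU : finrank L U ≤ n + c)
    (hxm : ∀ j, xmj d x j ∈ U) {R E₀ : ℝ}
    (hht : (ht κ U : ℝ) ≤ (n + 1) * height κ x + R + E₀)
    (hK : ∀ K ≤ U, (ht κ U : ℝ) ≤
      ht κ K + height κ x * ((finrank L U : ℝ) - finrank L K + 1) + R + E₀) :
    Rows0G κ x d c (((∑ j, d j : ℕ) - (n : ℝ) - 1) * height κ x - R) E₀ := by
  classical
  obtain ⟨V, hV⟩ : ∃ V, V = linB U := ⟨_, rfl⟩
  obtain ⟨W, hW⟩ : ∃ W, W = U.map ((prZ κ d n).map (algebraMap κ L)).mulVecLin := ⟨_, rfl⟩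
  have hVU : V ≤ U := by
    rw [hV]
    exact fun _ hu => hu.1
  have hmap : V.map ((prZ κ d n).map (algebraMap κ L)).mulVecLin ≤ ⊥ := by
    rintro _ ⟨b, hb, rfl⟩
    rw [Submodule.mem_bot, Matrix.mulVecLin_apply]
    funext s
    rw [prZ_mulVec, Pi.zero_apply]
    split_ifs with h1
    · rw [hV] at hb
      exact hb.2 s h1
    · rfl
  have hinj : ∀ b ∈ U, ((prZ κ d n).map (algebraMap κ L)).mulVec b ∈
      (⊥ : Submodule L ((Σ j : Fin p, EX (n + 1) (d j)) → L)) → b ∈ V := by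
    intro b hb hb'
    rw [Submodule.mem_bot] at hb'
    rw [hV]
    refine ⟨hb, fun s hs => ?_⟩
    have h1 := congrFun hb' s
    rw [prZ_mulVec, if_pos hs, Pi.zero_apply] at h1
    exact h1
  have h3 := ht_map_const h (prZ κ d n) hVU hmap hinj
  have h4 := finrank_sup_map hVU ((prZ κ d n).map (algebraMap κ L)).mulVecLin hmap hinj
  rw [bot_sup_eq, ht_bot h, ← hW] at h3
  rw [bot_sup_eq, finrank_bot, ← hW] at h4
  obtain ⟨hW1, hW2⟩ := ht_piece h W
  obtain ⟨hV1, hV2⟩ := ht_piece h V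
  have hxV : ∀ j, ¬ 2 ≤ d j → xmj d x j ∈ V := by
    intro j hj
    rw [hV]
    refine ⟨hxm j, fun s hs => ?_⟩
    unfold xmj
    rw [if_neg]
    intro h5
    rw [h5] at hs
    exact hj hs
  have hxW : ∀ j, 2 ≤ d j → xmj d x j ∈ W := by
    intro j hj
    rw [hW]
    refine ⟨_, hxm j, ?_⟩
    rw [Matrix.mulVecLin_apply]
    funext s
    rw [prZ_mulVec]
    split_ifs with h5
    · rfl
    · unfold xmj
      rw [if_neg]
      intro h6
      rw [h6] at h5
      exact h5 hj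
  have hH := h.height_nonneg hx
  obtain ⟨P, hP⟩ : ∃ P : (j : Fin p) → Submodule L (EX (n + 1) (d j) → L),
      P = fun j => if 2 ≤ d j then piece κ W j else piece κ V j := ⟨_, rfl⟩
  have hP2 : ∀ j, 2 ≤ d j → P j = piece κ W j := fun j hj => by rw [hP]; exact if_pos hj
  have hP1 : ∀ j, ¬ 2 ≤ d j → P j = piece κ V j := fun j hj => by rw [hP]; exact if_neg hj
  have s1 : ∑ j with 2 ≤ d j, ht κ (P j) ≤ ht κ W := by
    have e1 : ∑ j with 2 ≤ d j, ht κ (P j) = ∑ j with 2 ≤ d j, ht κ (piece κ W j) :=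
      Finset.sum_congr rfl fun j hj => by rw [hP2 j (Finset.mem_filter.1 hj).2]
    rw [e1]
    exact (Finset.sum_le_sum_of_subset_of_nonneg (Finset.filter_subset _ _)
      fun j _ _ => ht_nonneg h _).trans hW1
  have s2 : ∑ j with ¬ 2 ≤ d j, ht κ (P j) ≤ ht κ V := by
    have e1 : ∑ j with ¬ 2 ≤ d j, ht κ (P j) = ∑ j with ¬ 2 ≤ d j, ht κ (piece κ V j) :=
      Finset.sum_congr rfl fun j hj => by rw [hP1 j (Finset.mem_filter.1 hj).2]
    rw [e1]
    exact (Finset.sum_le_sum_of_subset_of_nonneg (Finset.filter_subset _ _)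
      fun j _ _ => ht_nonneg h _).trans hV1
  have s3 : ∑ j with 2 ≤ d j, finrank L (P j) ≤ finrank L W := by
    have e1 : ∑ j with 2 ≤ d j, finrank L (P j) = ∑ j with 2 ≤ d j, finrank L (piece κ W j) :=
      Finset.sum_congr rfl fun j hj => by rw [hP2 j (Finset.mem_filter.1 hj).2]
    rw [e1]
    exact (Finset.sum_le_sum_of_subset (Finset.filter_subset _ _)).trans hW2
  have s4 : ∑ j with ¬ 2 ≤ d j, finrank L (P j) ≤ finrank L V := by
    have e1 : ∑ j with ¬ 2 ≤ d j, finrank L (P j) = ∑ j with ¬ 2 ≤ d j, finrank L (piece κ V j) :=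
      Finset.sum_congr rfl fun j hj => by rw [hP1 j (Finset.mem_filter.1 hj).2]
    rw [e1]
    exact (Finset.sum_le_sum_of_subset (Finset.filter_subset _ _)).trans hV2
  have s1' : ∑ j with 2 ≤ d j, (ht κ (P j) : ℝ) ≤ ht κ W := by exact_mod_cast s1
  have s2' : ∑ j with ¬ 2 ≤ d j, (ht κ (P j) : ℝ) ≤ ht κ V := by exact_mod_cast s2
  have s4' : ∑ j with ¬ 2 ≤ d j, (finrank L (P j) : ℝ) ≤ finrank L V := by exact_mod_cast s4
  have h3' : (ht κ W : ℝ) + ht κ V ≤ ht κ U := by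
    have h5 : ht κ W + ht κ V ≤ ht κ U := by linarith
    exact_mod_cast h5
  have hH' : (0 : ℝ) ≤ height κ x := by exact_mod_cast hH
  have hcast : ((∑ j, d j : ℕ) : ℝ) = ∑ j, (d j : ℝ) := by push_cast; rfl
  refine ⟨P, fun j => ?_, ?_, ?_, ?_⟩
  · by_cases hj : 2 ≤ d j
    · rw [hP2 j hj]
      exact xm_mem_piece κ (hxW j hj)
    · rw [hP1 j hj]
      exact xm_mem_piece κ (hxV j hj)
  · rw [← Finset.sum_filter_add_sum_filter_not (s := Finset.univ) (p := fun j => 2 ≤ d j)]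
    omega
  · have h6 : ∑ j, ((d j : ℝ) * (height κ x : ℝ) - (ht κ (P j) : ℝ)) =
        (∑ j, (d j : ℝ)) * height κ x - ∑ j, (ht κ (P j) : ℝ) := by
      rw [Finset.sum_sub_distrib, Finset.sum_mul]
    have h7 : ∑ j, (ht κ (P j) : ℝ) ≤ ht κ U := by
      rw [← Finset.sum_filter_add_sum_filter_not (s := Finset.univ) (p := fun j => 2 ≤ d j)]
      linarith
    rw [h6, hcast]
    linarith
  · have h5 := hK V hVU
    have h6 : (finrank L U : ℝ) ≤ n + c := by exact_mod_cast hfU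
    have h7 : (∑ j with ¬ 2 ≤ d j, (finrank L (P j) : ℝ)) * height κ x ≤
        finrank L V * height κ x := mul_le_mul_of_nonneg_right s4' hH'
    have h8 : height κ x * ((finrank L U : ℝ) - finrank L V + 1) ≤
        height κ x * ((n : ℝ) + c - finrank L V + 1) :=
      mul_le_mul_of_nonneg_left (by linarith) hH'
    have h9 : height κ x * ((n : ℝ) + c - finrank L V + 1) =
        (n + c + 1) * height κ x - finrank L V * height κ x := by ring
    rw [hcast]
    linarith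

/-- **The rows of the point, graded pieces**, with the ramification. -/
theorem rows0G_of_data {κ : Type*} {K : Type u} [Field κ] [IsAlgClosed κ] [CharZero κ]
    [Field K] [CharZero K] [Algebra κ K] (h : IsFF κ K) {n c p : ℕ} {d : Fin p → ℕ}
    (X : RowT κ (L := K) n c (Σ j : Fin p, EX (n + 1) (d j)))
    (hxm : ∀ j, xmj d X.x j ∈ X.U) :
    Rows0G κ X.x d c (((∑ j, d j : ℕ) - (n : ℝ) - 1) * height κ X.x - X.R)
      ((n + c) * X.Δ') := by
  refine rows0G_of_space h X.hx X.hU hxm ?_ fun K₀ hK₀ => ?_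
  · have h1 := ht_U_T X h
    linarith
  · have h1 := ht_quot_T X h hK₀
    linarith

end Pool.Agent.Lib.MP_44a246_ntVQ
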