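import Mathlib
import Pool.Agent.Lib.MP_44a246_ntVT.VB2

/-!
# Sharp Vojta inequality: step 0 without a bound for the places of contact

As `ntVT/VB2`, if the forms of a block `A` with `n + 2 ≤ ∑ j ∈ A, d j` vanish at the point: the
curve is improved in the block of maximal degree of `A`, where the contact places do not matter.
Only `R ≤ q H` and `R + ∑ᶠ ε ≤ (∑ d j - n - 1) H` are needed.
-/

namespace Pool.Agent.Lib.MP_44a246_ntVQ

open Pool.Agent.Lib.MP_44a246_nt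
open Pool.Agent.Lib.MP_44a246_ntL
open Pool.Agent.Lib.MP_44a246_ntS
open Pool.Agent.Lib.MP_44a246_ntX
open Pool.Agent.Lib.MP_44a246_ntG
open Pool.Agent.Lib.MP_44a246_ntK
open Pool.Agent.Lib.MP_44a246_ntF
open Pool.Agent.Lib.MP_44a246_ntA
open Pool.Agent.Lib.MP_44a246_ntC
open Pool.Agent.Lib.MP_44a246_ntI
open Pool.Agent.Lib.MP_44a246_ntSH
open Pool.Agent.Lib.MP_44a246_ntVT
open Pool.Agent.Lib.MP_44a246_ntO (PairHyp one_le_finrank_aux exists_slope cost_le_aux block_abs)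
open Pool.Agent.Lib.MP_44a246_ntD (RB)
open Pool.Agent.Lib.MP_e52354_nt
open WithZero Module

/-- the data of some of the blocks -/
noncomputable def subC {κ L : Type*} [Field κ] [Field L] [Algebra κ L] {n p p' : ℕ}
    {d : Fin p → ℕ} (X : DatC κ (L := L) n d) {f : Fin p' → Fin p} (hf : Function.Injective f) :
    DatC κ (L := L) n (fun i => d (f i)) where
  a := fun i => X.a (f i)
  D := fun s => X.D (f s.1, s.2)
  δ := X.δ
  ρ := X.ρ
  x := X.x
  z := X.z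
  E := X.E
  ξ₀ := X.ξ₀
  ξ₁ := X.ξ₁
  hDa := fun s hs s' hs' => by
    rw [X.hDa (f s.1, s.2) hs (f s'.1, s'.2) hs']
    refine if_congr ?_ rfl rfl
    rw [Prod.mk.injEq, hf.eq_iff, Prod.ext_iff]
  hδ := X.hδ
  hρ := X.hρ
  hD := fun w m K c hK hc => X.hD w m (fun i => (f (K i).1, (K i).2)) c hK hc
  hE := X.hE
  hEz := X.hEz
  hEx := X.hEx
  h0 := X.h0
  hmax := X.hmax

/-- The sum of the degrees, if all the slopes are small. -/
private theorem sum_le_of_slopeVN {κ K : Type*} [Field κ] [IsAlgClosed κ] [CharZero κ] [Field K]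
    [Algebra κ K] {n : ℕ} (h : IsFF κ K) (hn : 1 ≤ n) {x : Fin n → K} (hx : x ≠ 0) {p : ℕ}
    {d : Fin p → ℕ} (hd : ∀ j, 1 ≤ d j) {ρ r c k q : ℕ} {E F : ℝ} (hE : 0 ≤ E)
    (hF : F ≤ q * height κ x) (hP : PairHyp κ x d ρ r c k (E + F)) {C₀ : ℕ}
    (hsl : ∀ E₁ : Submodule K (Fin n → K), x ∈ E₁ →
      r * ((height κ x : ℝ) - ht κ E₁) ≤ C₀ * height κ x * ((finrank K E₁ : ℝ) - 1))
    (hEH : n * E < height κ x) (hr : 1 ≤ r) (hcr : c * C₀ ≤ r) : k ≤ C₀ + q + 1 := by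
  have hE' : 0 ≤ (n : ℝ) * E := mul_nonneg (Nat.cast_nonneg _) hE
  have hHR : (0 : ℝ) < height κ x := lt_of_le_of_lt hE' hEH
  have hrR : (1 : ℝ) ≤ r := by exact_mod_cast hr
  have hr0 : (0 : ℝ) < r := by linarith
  have hnR : (1 : ℝ) ≤ n := by exact_mod_cast hn
  have hEH1 : E < height κ x := by nlinarith
  obtain ⟨M, hM⟩ : ∃ M : ℝ, M = C₀ * height κ x / r := ⟨_, rfl⟩
  have hM0 : 0 ≤ M := by rw [hM]; positivity
  have hMr : M * r = C₀ * height κ x := by rw [hM]; field_simp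
  have hcM : M * c ≤ height κ x := by
    have h1 : (c : ℝ) * C₀ ≤ r := by exact_mod_cast hcr
    have h2 : (M * c) * r ≤ height κ x * r := by
      have h3 : (M * c) * r = (c * C₀) * height κ x := by
        have : (M * c) * r = c * (M * r) := by ring
        rw [this, hMr]
        ring
      rw [h3, mul_comm (height κ x : ℝ)]
      exact mul_le_mul_of_nonneg_right h1 hHR.le
    exact le_of_mul_le_mul_right h2 hr0
  have hslM : ∀ E₁ : Submodule K (Fin n → K), x ∈ E₁ →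
      (height κ x : ℝ) - ht κ E₁ ≤ M * ((finrank K E₁ : ℝ) - 1) := by
    intro E₁ hE₁
    have h1 := hsl E₁ hE₁
    refine le_of_mul_le_mul_left (h1.trans (le_of_eq ?_)) hr0
    rw [← hMr]
    ring
  obtain ⟨j, U, hU, hle⟩ := hP (K ∙ x) (Submodule.mem_span_singleton_self x) M hM0
  rw [finrank_span_singleton hx, ht_single h hx] at hle
  have h1 := cost_le_aux h hx hslM (hd j) hU
  have h2 : (ρ : ℝ) * ((d j : ℝ) * height κ x - ht κ U - M * ((finrank K U : ℝ) - 1)) ≤ 0 :=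
    mul_nonpos_of_nonneg_of_nonpos (Nat.cast_nonneg _) (by linarith)
  have h3 : (k : ℝ) * height κ x < (C₀ + q + 2) * height κ x := by
    push_cast at hle
    nlinarith
  have h4 : (k : ℝ) < C₀ + q + 2 := lt_of_mul_lt_mul_right h3 hHR.le
  have h5 : k < C₀ + q + 2 := by exact_mod_cast h4
  omega

/-- **Step 0 with a boundary**, if the forms `A` with `n + 2 ≤ ∑ j ∈ A, d j` vanish at the
point. -/
theorem step0VN {κ L : Type*} [Field κ] [IsAlgClosed κ] [CharZero κ] [Field L] [CharZero L]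
    [Algebra κ L] (h : IsFF κ L) {n p b C₀ q : ℕ} {d : Fin p → ℕ} (X : DatC κ (L := L) n d)
    {ε : Place κ L → ℕ} (hε : (Function.support ε).Finite)
    (hvε : ∀ w : Place κ L, (∀ j, X.v j ≠ 0 → w.1 (X.v j) = vmax w.1 X.x ^ d j) ∨ 1 ≤ ε w)
    {A : Finset (Fin p)} (hA0 : ∀ j ∈ A, X.v j = 0)
    (hn : 1 ≤ n) (hd1 : ∀ j, 1 ≤ d j) (hdA : n + 2 ≤ ∑ j ∈ A, d j) (hb : 6 ≤ b)
    (hbn : 400 * p * (b * (4 * p + 1)) * (q + 3) ≤ n)
    (hC : 365 * p + 10 ≤ C₀) (hpC : p * C₀ ≤ n)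
    (hbC : 42 * (20 * n + 9 * C₀) ≤ 180 * (C₀ * b))
    (hRq : X.R ≤ q * height κ X.x)
    (hRk : X.R + ∑ᶠ w, (ε w : ℤ) ≤ ((∑ j, (d j : ℤ)) - n - 1) * height κ X.x)
    (hbig : (27 * ((∑ j, d j : ℕ) : ℤ) ^ 2 + (n + 1) * ((n + 1) * (n + 1) + p + 1)) * X.Δ <
      height κ X.x) :
    ((∀ j ∈ A, d j ≤ n + C₀ + q + 3) ∧ ∀ E₁ : Submodule L (Fin (n + 1) → L), X.x ∈ E₁ →
      n * ((height κ X.x : ℝ) - ht κ E₁) ≤ C₀ * height κ X.x * ((finrank L E₁ : ℝ) - 1)) ∨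
    ∃ j ∈ A, (∀ i ∈ A, d i ≤ d j) ∧ n ≤ 4 * p * d j ∧ SmallI (X.blk j) b q := by
  classical
  have hp : 1 ≤ p := by
    by_contra hcon
    have h1 : p = 0 := by omega
    subst h1
    rw [Finset.eq_empty_of_isEmpty A, Finset.sum_empty] at hdA
    omega
  have hd : n + 2 ≤ ∑ j, d j := hdA.trans (Finset.sum_le_sum_of_subset (Finset.subset_univ A))
  have hΔ := X.Δ_nonneg
  have hR := X.R_nonneg
  obtain ⟨N, hN⟩ : ∃ N : ℤ, N = ∑ᶠ w, (ε w : ℤ) := ⟨_, rfl⟩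
  have hN0 : 0 ≤ N := by
    rw [hN]
    exact finsum_nonneg fun w => Int.natCast_nonneg _
  rw [← hN] at hRk
  have hH : 0 < height κ X.x := lt_of_le_of_lt (mul_nonneg (by positivity) hΔ) hbig
  have hHr : (0 : ℝ) < height κ X.x := by exact_mod_cast hH
  have hx0 : X.x ≠ 0 := by
    intro h1
    have h2 := X.h0
    rw [h1] at h2
    simp at h2
  obtain ⟨E, hE⟩ : ∃ E : ℝ, E = (((((n + 1) * (n + 1) + p : ℕ) : ℤ) * X.Δ : ℤ) : ℝ) := ⟨_, rfl⟩
  have hE0 : 0 ≤ E := by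
    rw [hE]
    exact_mod_cast mul_nonneg (Int.natCast_nonneg _) hΔ
  have hEH : ((n + 1 : ℕ) : ℝ) * E < height κ X.x := by
    have h1 : ((n + 1 : ℕ) : ℤ) * ((((n + 1) * (n + 1) + p : ℕ) : ℤ) * X.Δ) <
        height κ X.x := by
      have h2 : ((n + 1 : ℕ) : ℤ) * ((((n + 1) * (n + 1) + p : ℕ) : ℤ) * X.Δ) ≤
          ((n : ℤ) + 1) * ((n + 1) * (n + 1) + p + 1) * X.Δ := by
        push_cast
        have h3 : 0 ≤ (n : ℤ) + 1 := by positivity
        have h4 : 0 ≤ ((n : ℤ) + 1) * X.Δ := mul_nonneg h3 hΔ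
        nlinarith
      have h3 : 0 ≤ 27 * ((∑ j, d j : ℕ) : ℤ) ^ 2 * X.Δ := mul_nonneg (by positivity) hΔ
      nlinarith
    rw [hE]
    exact_mod_cast h1
  have hn1 : (1 : ℝ) ≤ n := by exact_mod_cast hn
  have hEH' : E < height κ X.x := by
    have h1 : E ≤ ((n + 1 : ℕ) : ℝ) * E := by
      push_cast
      nlinarith
    linarith
  obtain ⟨k, hk⟩ : ∃ k, k + n + 2 = ∑ j, d j := ⟨∑ j, d j - (n + 2), by omega⟩
  by_cases hall : ∀ E₁ : Submodule L (Fin (n + 1) → L), X.x ∈ E₁ →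
      n * ((height κ X.x : ℝ) - ht κ E₁) ≤ C₀ * height κ X.x * ((finrank L E₁ : ℝ) - 1)
  · refine Or.inl ⟨fun j hj => ?_, hall⟩
    by_contra hcon
    obtain ⟨k₁, hk₁⟩ : ∃ k₁, k₁ + n + 2 = d j := ⟨d j - (n + 2), by omega⟩
    have hf : Function.Injective (fun _ : Fin 1 => j) := fun a b _ => Subsingleton.elim a b
    have hP := pairHyp_datCL h (subC X hf) le_rfl (k := k₁) (by simp [hk₁]) (ε := fun _ => 0)
      (by simp) (fun w => Or.inl fun i hi => absurd (hA0 j hj) hi)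
    have hEE : ((((((n + 1) * (n + 1) + 1 : ℕ) : ℤ) * (subC X hf).Δ + ((subC X hf).R +
        ∑ᶠ w : Place κ L, (((fun _ => 0 : Place κ L → ℕ) w : ℕ) : ℤ)) : ℤ)) : ℝ) =
        (((((n + 1) * (n + 1) + 1 : ℕ) : ℤ) * X.Δ : ℤ) : ℝ) + ((X.R : ℤ) : ℝ) := by
      have h1 : ∑ᶠ w : Place κ L, (((fun _ => 0 : Place κ L → ℕ) w : ℕ) : ℤ) = 0 := by simp
      rw [h1, add_zero, Int.cast_add]
      rfl
    rw [hEE] at hP
    have hle : (((((n + 1) * (n + 1) + 1 : ℕ) : ℤ) * X.Δ : ℤ) : ℝ) ≤ E := by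
      rw [hE]
      have h1 : (((n + 1) * (n + 1) + 1 : ℕ) : ℤ) * X.Δ ≤
          (((n + 1) * (n + 1) + p : ℕ) : ℤ) * X.Δ := by
        refine mul_le_mul_of_nonneg_right ?_ hΔ
        exact_mod_cast Nat.add_le_add_left hp _
      exact_mod_cast h1
    have hE1 : (0 : ℝ) ≤ (((((n + 1) * (n + 1) + 1 : ℕ) : ℤ) * X.Δ : ℤ) : ℝ) := by
      exact_mod_cast mul_nonneg (Int.natCast_nonneg _) hΔ
    have h1 := sum_le_of_slopeVN h (n := n + 1) (by omega) hx0 (d := fun _ : Fin 1 => d j)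
      (fun _ => hd1 j) (q := q) hE1 (by exact_mod_cast hRq) hP hall
      (lt_of_le_of_lt (mul_le_mul_of_nonneg_left hle (Nat.cast_nonneg _)) hEH) hn
      (le_trans (Nat.mul_le_mul_right _ hp) hpC)
    omega
  right
  have hP := pairHyp_datCL h X hp hk.le hε hvε
  have hEE : ((((((n + 1) * (n + 1) + p : ℕ) : ℤ) * X.Δ + (X.R + ∑ᶠ w, (ε w : ℤ)) : ℤ)) : ℝ) =
      E + (((X.R + N : ℤ)) : ℝ) := by
    rw [hE, ← hN, Int.cast_add]
  rw [hEE] at hP
  obtain ⟨E₁, hE₁⟩ := not_forall.1 hall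
  obtain ⟨hxE, hsl⟩ := Classical.not_imp.1 hE₁
  rw [not_le] at hsl
  -- the dimension of the steep space
  have hE2 : 2 ≤ finrank L E₁ := by
    have h1 := one_le_finrank_aux hx0 hxE
    by_contra hcon
    have h2 : finrank L E₁ = 1 := by omega
    have h3 : E₁ = L ∙ X.x := by
      symm
      refine Submodule.eq_of_le_of_finrank_eq
        ((Submodule.span_singleton_le_iff_mem _ _).2 hxE) ?_
      rw [finrank_span_singleton hx0, h2]
    rw [h3, finrank_span_singleton hx0, ht_single h hx0] at hsl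
    simp at hsl
  -- the pair hypothesis for `k = 0`
  have hkH : (((X.R + N : ℤ)) : ℝ) ≤ (k + 1) * height κ X.x := by
    have h1 : (∑ j, (d j : ℤ)) = ((∑ j, d j : ℕ) : ℤ) := by push_cast; rfl
    have h2 : X.R + N ≤ ((k : ℤ) + 1) * height κ X.x := by
      rw [h1, ← hk] at hRk
      push_cast at hRk
      have h3 : ((k : ℤ) + n + 2 - n - 1) = k + 1 := by ring
      rwa [h3] at hRk
    exact_mod_cast h2
  have hP0 : PairHyp κ X.x d p n p 0 (height κ X.x + E) := by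
    intro Λ hΛ t ht0
    obtain ⟨j, U, hU, hle⟩ := hP Λ hΛ t ht0
    refine ⟨j, U, hU, le_trans ?_ hle⟩
    have h1 : (((0 : ℕ) : ℝ) - ((finrank L Λ : ℝ) - 1)) * height κ X.x =
        ((k : ℝ) - ((finrank L Λ : ℝ) - 1)) * height κ X.x - k * height κ X.x := by
      push_cast
      ring
    rw [h1]
    linarith
  obtain ⟨P, hxP, hPH, hPd⟩ := lemmaP_steepVL h (n := n + 1) (by omega) hx0 (d := d) (r := n)
    (c := p) hp hE0 hP0 (by omega) hxE hE2 hsl.le hEH.le hH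
  have hbn1 : 400 * p * (b * (4 * p + 1)) ≤ n :=
    (Nat.le_mul_of_pos_right _ (by omega)).trans hbn
  obtain ⟨j₀, a, A', -, h1, h2, h3, h4, h5⟩ := curve_steepVL h X (b := b) (C₀ := C₀) hp le_rfl hb
    (by omega) hbn1 (by omega) hbC hH (E := height κ X.x + E) (by linarith) hP0 hxP hPH hPd
  -- the block of maximal degree in `A`
  obtain ⟨j₁, hj₁⟩ : A.Nonempty := by
    rw [Finset.nonempty_iff_ne_empty]
    rintro rfl
    rw [Finset.sum_empty] at hdA
    omega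
  obtain ⟨j, hjA, hjmax⟩ := Finset.exists_max_image A d ⟨j₁, hj₁⟩
  have hj : n ≤ 4 * p * d j := by
    have k1 : ∑ i ∈ A, d i ≤ A.card • d j := Finset.sum_le_card_nsmul A d (d j) hjmax
    have k2 : A.card ≤ p := (Finset.card_le_univ A).trans_eq (Fintype.card_fin p)
    have k3 : A.card • d j ≤ p * d j := by
      rw [smul_eq_mul]
      exact Nat.mul_le_mul_right _ k2
    have k4 : p * d j ≤ 4 * p * d j := Nat.mul_le_mul_right _ (by omega)
    omega
  refine ⟨j, hjA, hjmax, hj, ?_⟩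
  have hdq : 100 * (b * (4 * p + 1) * (q + 3)) ≤ d j := by
    have h6 : 4 * p * (100 * (b * (4 * p + 1) * (q + 3))) ≤ 4 * p * d j := by
      refine le_trans (le_of_eq ?_) (hbn.trans hj)
      ring
    exact Nat.le_of_mul_le_mul_left h6 (by omega)
  have hdj : 100 * (b * (4 * p + 1)) ≤ d j := by
    have h6 : b * (4 * p + 1) ≤ b * (4 * p + 1) * (q + 3) := Nat.le_mul_of_pos_right _ (by omega)
    omega
  have hbd : 100 * b + p + 1 ≤ d j := by
    have h6 : b * (4 * p + 1) = b * (4 * p) + b := by ring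
    have h7 : 6 * (4 * p) ≤ b * (4 * p) := Nat.mul_le_mul_right _ hb
    omega
  have hnd : n + 1 + p ≤ (4 * p + 1) * d j := by
    have h6 : (4 * p + 1) * d j = 4 * p * d j + d j := by ring
    omega
  have hdpb : 50 * (b * (q + 3)) + 5 * Fintype.card (Fin 0) ≤ 2 * d j := by
    rw [Fintype.card_fin]
    have h6 : b * (4 * p + 1) * (q + 3) = (4 * p) * (b * (q + 3)) + b * (q + 3) := by ring
    have h7 : (4 * p) * 18 ≤ (4 * p) * (b * (q + 3)) :=
      Nat.mul_le_mul_left _ (Nat.mul_le_mul hb (by omega : 3 ≤ q + 3))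
    omega
  have hr₀ : finrank L (X.blk j).Ux ≤ n + 1 := by
    refine (finrank_range_le_card (R := L)
      (fun i : Fin (n + 1) => (X.blk j).row ((X.blk j).x i))).trans ?_
    rw [Fintype.card_fin]
  have hvrow : (X.blk j).row (X.blk j).v ∈ (X.blk j).Ux ⊔
      (RB (X.blk j) (Fin.elim0 : Fin 0 → L) ⊔ LB (X.blk j) (Fin.elim0 : Fin 0 → L)) := by
    have hvj : (X.blk j).v = X.v j := rfl
    have hrow0 : (X.blk j).row (X.blk j).v = 0 := by
      rw [hvj, hA0 j hjA]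
      funext K
      exact map_zero _
    rw [hrow0]
    exact Submodule.zero_mem _
  refine smallI_block h (m := 4 * p + 1) (r := n + 1 + p) (r₀ := n + 1) (q := q)
    (Λ := Fin 0)
    (γ := Fin 0) (by omega) hb hdj hdpb hnd (X.blk j)
    (finVJ h (X.blk j))
    (β := Fin.elim0) (fun t => t.elim0) (η := Fin.elim0) (fun t => t.elim0)
    (t := Fin.elim0)
    (ε := fun _ => 0) (by simp) (fun w => Or.inl fun t => t.elim0)
    hvrow hr₀
    (by rw [Fintype.card_fin]; omega) (E₀ := 0) le_rfl ?_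
    ⟨a, A', h1, h2, h3, h4, h5⟩ ?_
  · have h6 : (X.blk j).R = X.R := rfl
    have h11 : height κ (X.blk j).x = height κ X.x := rfl
    have h12 : ∑ᶠ w : Place κ L, (((fun _ => 0 : Place κ L → ℕ) w : ℕ) : ℤ) = 0 := by simp
    rw [h6, h11, h12, add_zero, add_zero]
    exact hRq
  have h6 : 0 ≤ ((n : ℤ) + 1) * ((n + 1) * (n + 1) + p + 1) * X.Δ :=
    mul_nonneg (by positivity) hΔ
  have h7 : (d j : ℤ) ≤ ((∑ j, d j : ℕ) : ℤ) := by
    exact_mod_cast Finset.single_le_sum (f := d) (fun _ _ => Nat.zero_le _) (Finset.mem_univ j)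
  have h8 : (d j : ℤ) ^ 2 ≤ ((∑ j, d j : ℕ) : ℤ) ^ 2 :=
    pow_le_pow_left₀ (Int.natCast_nonneg _) h7 2
  have h9 : 27 * (d j : ℤ) ^ 2 * X.Δ ≤
      27 * ((∑ j, d j : ℕ) : ℤ) ^ 2 * X.Δ :=
    mul_le_mul_of_nonneg_right (by linarith) hΔ
  have h10 : (X.blk j).Δ = X.Δ := rfl
  have h11 : height κ (X.blk j).x = height κ X.x := rfl
  rw [h10, h11, add_zero]
  linarith

end Pool.Agent.Lib.MP_44a246_ntVQ
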