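import Mathlib
import Pool.Agent.Lib.MP_44a246_ntSH.SU4

/-!
# Sharp Vojta inequality: certificates, only the forms which vanish at the point are bounded
-/

namespace Pool.Agent.Lib.MP_44a246_ntVQ

open Pool.Agent.Lib.MP_44a246_nt
open Pool.Agent.Lib.MP_44a246_ntL
open Pool.Agent.Lib.MP_44a246_ntS
open Pool.Agent.Lib.MP_44a246_ntX
open Pool.Agent.Lib.MP_44a246_ntG
open Pool.Agent.Lib.MP_44a246_ntK
open Pool.Agent.Lib.MP_44a246_ntF
open Pool.Agent.Lib.MP_44a246_ntA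
open Pool.Agent.Lib.MP_44a246_ntC
open Pool.Agent.Lib.MP_44a246_ntI
open Pool.Agent.Lib.MP_44a246_ntSH
open Pool.Agent.Lib.MP_44a246_ntO (PairHyp one_le_finrank_aux)
open Pool.Agent.Lib.MP_e52354_nt
open WithZero Module

/-- **The certificate of a curve of small degree**, for the forms `ι` which vanish at the point.
Proof: `certSP_of_smallI` (SU4), with `stepCSP` for `fun i : ι => d (f i)`. With `D = d j`
(maximal), `g = gh κ A`: `3 D ^ 2 g ≤ D ^ 2 Δ + 23 R`, `R ≤ q H`, `3000 (q + 3) ≤ D` and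
`n ≤ 4 p D`, `600 (4 p + 1) (q + 3) ≤ D`: so `D g ≤ D Δ + H / 300` and
`2 (n + 1) (3 g + Δ) ≤ 4 (n + 1) Δ + H / 5`. -/
theorem certSP_of_smallIVN {κ L : Type*} [Field κ] [IsAlgClosed κ] [CharZero κ] [Field L]
    [CharZero L] [Algebra κ L] (h : IsFF κ L) {n p b q : ℕ} {d : Fin p → ℕ}
    (X : DatSC κ (L := L) n d) {ι : Type*} (f : ι → Fin p)
    (hF : ∀ i, Fval (d (f i)) (X.a (f i)) X.x = 0) (hb : 6 ≤ b)
    (hbn : 400 * p * (b * (4 * p + 1)) * (q + 3) ≤ n)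
    {τ : Place κ L → ℕ} (hτ : (Function.support τ).Finite)
    (ha : ∀ (w : Place κ L) j, ∀ I ∈ expo (Fin (n + 1)) (d j), w.1 (X.a j I) ≤ exp (τ w : ℤ))
    {j : Fin p} (hmax : ∀ i, d (f i) ≤ d j) (hnd : n ≤ 4 * p * d j) (hS : SmallI (X.blk j) b q)
    (hRq : X.R ≤ q * height κ X.x)
    (hbig : 2 * ((((∑ j, d j : ℕ) : ℤ) + 8 * (n + 1)) * X.Δ + b * ∑ᶠ w, (τ w : ℤ)) <
      height κ X.x) :
    CertSP (fun i => d (f i)) (fun i => X.a (f i)) b 1 X.x := by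
  obtain ⟨a, A, P, h1, h2, h3, -, -, -, h7, -, h9⟩ := hS
  have hΔ : 0 ≤ X.Δ := X.Δ_nonneg
  have hR : 0 ≤ X.R := X.R_nonneg
  have e1 : (X.blk j).Δ = X.Δ := rfl
  have e2 : (X.blk j).R = X.R := rfl
  rw [e1] at h7
  rw [e1, e2] at h9
  have hΘ : 0 ≤ ∑ᶠ w, (τ w : ℤ) := finsum_nonneg fun w => Int.natCast_nonneg _
  have hgA : 0 ≤ gh κ A := gh_nonneg h h3.irr.ne_zero
  have hx0 := X.x_ne_zero
  have hab : (a : ℤ) ≤ b := by exact_mod_cast h2
  have hp : 1 ≤ p := by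
    have := j.2
    omega
  -- the degree is large
  have hD : 600 * (4 * p + 1) * (q + 3) ≤ d j := by
    have k1 : 4 * p * (100 * (b * (4 * p + 1)) * (q + 3)) ≤ 4 * p * d j := by
      refine le_trans (le_of_eq ?_) (hbn.trans hnd)
      ring
    have k2 := Nat.le_of_mul_le_mul_left k1 (by omega)
    refine le_trans ?_ k2
    have k3 : 6 * (4 * p + 1) ≤ b * (4 * p + 1) := Nat.mul_le_mul_right _ hb
    have k4 : 100 * (6 * (4 * p + 1)) * (q + 3) ≤ 100 * (b * (4 * p + 1)) * (q + 3) :=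
      Nat.mul_le_mul_right _ (Nat.mul_le_mul_left _ k3)
    refine le_trans (le_of_eq ?_) k4
    ring
  have hD1 : 1 ≤ d j := by
    refine le_trans ?_ hD
    have k1 : 1 ≤ 600 * (4 * p + 1) := by omega
    exact Nat.succ_le_of_lt (Nat.mul_pos k1 (by omega))
  obtain ⟨D, hDd⟩ : ∃ D : ℤ, D = (d j : ℤ) := ⟨_, rfl⟩
  obtain ⟨H, hH⟩ : ∃ H : ℤ, H = height κ X.x := ⟨_, rfl⟩
  obtain ⟨g, hg⟩ : ∃ g : ℤ, g = gh κ A := ⟨_, rfl⟩
  obtain ⟨c, hc⟩ : ∃ c : ℤ, c = 4 * (p : ℤ) + 1 := ⟨_, rfl⟩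
  have hDz : 600 * c * ((q : ℤ) + 3) ≤ D := by
    rw [hDd, hc]
    exact_mod_cast hD
  have hD0 : 0 < D := by
    rw [hDd]
    exact_mod_cast hD1
  have hc1 : 1 ≤ c := by
    rw [hc]
    have : (0 : ℤ) ≤ p := Int.natCast_nonneg _
    linarith
  have hq0 : (0 : ℤ) ≤ q := Int.natCast_nonneg _
  rw [← hDd, ← hg] at h9
  rw [← hH] at hRq
  rw [← hg] at hgA
  have hn0 : (0 : ℤ) ≤ n := Int.natCast_nonneg _
  have hS0 : D ≤ ((∑ j, d j : ℕ) : ℤ) := by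
    rw [hDd]
    exact_mod_cast Finset.single_le_sum (f := d) (fun _ _ => Nat.zero_le _) (Finset.mem_univ j)
  have hbΘ : 0 ≤ (b : ℤ) * ∑ᶠ w, (τ w : ℤ) := mul_nonneg (Int.natCast_nonneg _) hΘ
  have haΘ : (a : ℤ) * ∑ᶠ w, (τ w : ℤ) ≤ b * ∑ᶠ w, (τ w : ℤ) :=
    mul_le_mul_of_nonneg_right hab hΘ
  rw [← hH] at hbig
  have hSΔ : D * X.Δ ≤ ((∑ j, d j : ℕ) : ℤ) * X.Δ := mul_le_mul_of_nonneg_right hS0 hΔ
  have hDΔ : 0 ≤ D * X.Δ := mul_nonneg hD0.le hΔ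
  have hnΔ : 0 ≤ ((n : ℤ) + 1) * X.Δ := mul_nonneg (by linarith) hΔ
  have hbig1 : 2 * (D * X.Δ + 8 * (((n : ℤ) + 1) * X.Δ) + b * ∑ᶠ w, (τ w : ℤ)) < H := by
    have k1 : (((∑ j, d j : ℕ) : ℤ) + 8 * (n + 1)) * X.Δ =
        ((∑ j, d j : ℕ) : ℤ) * X.Δ + 8 * (((n : ℤ) + 1) * X.Δ) := by ring
    rw [k1] at hbig
    linarith
  have hH0 : 0 < H := by linarith
  -- the height of the curve
  have ht1 : 600 * c * (D * (3 * g - X.Δ)) ≤ 23 * H := by
    have k1 : D ^ 2 * (3 * g - X.Δ) ≤ 23 * (q * H) := by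
      have : D ^ 2 * (3 * g - X.Δ) = 3 * (D ^ 2 * g) - D ^ 2 * X.Δ := by ring
      rw [this]
      linarith
    have k2 : 600 * c * (D ^ 2 * (3 * g - X.Δ)) ≤ 600 * c * (23 * (q * H)) :=
      mul_le_mul_of_nonneg_left k1 (by linarith)
    have k3 : 600 * c * (23 * (q * H)) ≤ 23 * (D * H) := by
      have k4 : 600 * c * q ≤ D := by
        have : 0 ≤ 600 * c * 3 := by linarith
        have k5 : 600 * c * ((q : ℤ) + 3) = 600 * c * q + 600 * c * 3 := by ring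
        linarith
      have k6 := mul_le_mul_of_nonneg_right k4 hH0.le
      have k7 : 600 * c * (23 * (q * H)) = 23 * (600 * c * q * H) := by ring
      rw [k7]
      linarith
    have k8 : D * (600 * c * (D * (3 * g - X.Δ))) ≤ D * (23 * H) := by
      have k9 : D * (600 * c * (D * (3 * g - X.Δ))) = 600 * c * (D ^ 2 * (3 * g - X.Δ)) := by ring
      rw [k9]
      linarith
    exact le_of_mul_le_mul_left k8 hD0
  have ht2 : 600 * (D * (3 * g - X.Δ)) ≤ 23 * H := by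
    rcases le_total 0 (3 * g - X.Δ) with hs | hs
    · have k1 : 0 ≤ D * (3 * g - X.Δ) := mul_nonneg hD0.le hs
      have k2 : 600 * 1 * (D * (3 * g - X.Δ)) ≤ 600 * c * (D * (3 * g - X.Δ)) :=
        mul_le_mul_of_nonneg_right (by linarith) k1
      linarith
    · have k1 : D * (3 * g - X.Δ) ≤ 0 := mul_nonpos_of_nonneg_of_nonpos hD0.le hs
      linarith
  have ht3 : 600 * (((n : ℤ) + 1) * (3 * g - X.Δ)) ≤ 23 * H := by
    rcases le_total 0 (3 * g - X.Δ) with hs | hs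
    · have k1 : (n : ℤ) + 1 ≤ c * D := by
        have k2 : (n : ℤ) ≤ 4 * p * D := by
          rw [hDd]
          exact_mod_cast hnd
        rw [hc]
        linarith
      have k3 := mul_le_mul_of_nonneg_right k1 hs
      have k4 : 600 * c * (D * (3 * g - X.Δ)) = 600 * (c * D * (3 * g - X.Δ)) := by ring
      linarith
    · have k1 : ((n : ℤ) + 1) * (3 * g - X.Δ) ≤ 0 :=
        mul_nonpos_of_nonneg_of_nonpos (by linarith) hs
      linarith
  refine certSP_mono h2 (stepCSP (X.blk j) h3 h X.hEκ hτ (fun i I hI w => ha w (f i) I hI) hF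
    (fun Q hQ _ => one_le_finrank_aux hx0 hQ) h7 (fun i => ?_) ?_)
  · have k1 : (d (f i) : ℤ) ≤ D := by
      rw [hDd]
      exact_mod_cast hmax i
    have k2 : (d (f i) : ℤ) * g ≤ D * g := mul_le_mul_of_nonneg_right k1 hgA
    have k3 : 3 * (D * g) = D * (3 * g - X.Δ) + D * X.Δ := by ring
    show (d (f i) : ℤ) * gh κ A + a * ∑ᶠ w, (τ w : ℤ) < height κ X.x
    rw [← hg, ← hH]
    linarith
  · show 2 * ((n : ℤ) + 1) * (3 * gh κ A + X.Δ) ≤ height κ X.x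
    rw [← hg, ← hH]
    have k1 : 2 * ((n : ℤ) + 1) * (3 * g + X.Δ) =
        2 * (((n : ℤ) + 1) * (3 * g - X.Δ)) + 4 * (((n : ℤ) + 1) * X.Δ) := by ring
    rw [k1]
    linarith

/-- **The certificate of a plane curve of small height**, for the forms `ι` which vanish at the
point. Proof: `certSP_of_slope` (SU4) with `certSP_of_plane` for `fun i : ι => d (f i)`. -/
theorem certSP_of_slopeVN {κ L : Type*} [Field κ] [IsAlgClosed κ] [CharZero κ] [Field L]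
    [CharZero L] [Algebra κ L] (h : IsFF κ L) {n p C₀ C₁ C₈ : ℕ} {d : Fin p → ℕ}
    (X : DatSC κ (L := L) n d) {ι : Type*} (f : ι → Fin p)
    (hF : ∀ i, Fval (d (f i)) (X.a (f i)) X.x = 0) (j₀ : Fin p)
    (hC₀ : 1 ≤ C₀) (hd2 : ∀ i, d (f i) ≤ 2 * n) (hn : 20 * (C₁ + 1) * (C₈ + 1) ≤ n)
    (hsl : ∀ Q : Submodule L (Fin (n + 1) → L), X.x ∈ Q →
      n * ((height κ X.x : ℝ) - ht κ Q) ≤ C₀ * height κ X.x * ((finrank L Q : ℝ) - 1))
    {τ : Place κ L → ℕ} (hτ : (Function.support τ).Finite)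
    (ha : ∀ (w : Place κ L) j, ∀ I ∈ expo (Fin (n + 1)) (d j), w.1 (X.a j I) ≤ exp (τ w : ℤ))
    {e : ℕ} {P : MvPolynomial (Fin 3) L} (he : e ≤ C₁ * n) (hP0 : P ≠ 0)
    (hPh : P.IsHomogeneous e) (hPe : MvPolynomial.eval X.pt P = 0)
    (hPs : (polyHeight κ P : ℝ) * n ^ 2 ≤ C₈ * height κ X.x)
    (hpos : 0 < height κ X.x)
    (hb1 : 9 * ((C₁ * n : ℕ) : ℤ) * X.Δ ≤ height κ X.x)
    (hb2 : 2 * ((C₁ * n : ℕ) : ℤ) * ∑ᶠ w, (τ w : ℤ) ≤ height κ X.x)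
    (hb3 : 4 * ((n : ℤ) + 1) * X.Δ ≤ height κ X.x) :
    CertSP (fun i => d (f i)) (fun i => X.a (f i)) (C₁ * n) (n / (2 * C₀) + 1) X.x := by
  have hPn : 0 ≤ polyHeight κ P := polyHeight_nonneg h hP0
  have hn1 : 20 ≤ n := by
    refine le_trans ?_ hn
    have h1 : 1 ≤ (C₁ + 1) * (C₈ + 1) := Nat.succ_le_of_lt (Nat.mul_pos (by omega) (by omega))
    calc 20 = 20 * 1 := rfl
      _ ≤ 20 * ((C₁ + 1) * (C₈ + 1)) := Nat.mul_le_mul_left _ h1
      _ = _ := by ring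
  have hnz : (20 : ℤ) ≤ n := by exact_mod_cast hn1
  have hPs' : polyHeight κ P * (n : ℤ) ^ 2 ≤ C₈ * height κ X.x := by exact_mod_cast hPs
  have hnC : 20 * ((C₁ : ℤ) + 1) * (C₈ + 1) ≤ n := by exact_mod_cast hn
  -- `20 (C₁ + 1) n polyHeight P ≤ H`
  have hP1 : 20 * ((C₁ : ℤ) + 1) * (n * polyHeight κ P) ≤ height κ X.x := by
    have k1 : (20 * ((C₁ : ℤ) + 1) * (C₈ + 1)) * (20 * ((C₁ : ℤ) + 1) * (n * polyHeight κ P)) ≤
        n * (20 * ((C₁ : ℤ) + 1) * (n * polyHeight κ P)) :=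
      mul_le_mul_of_nonneg_right hnC (by positivity)
    have k2 : n * (20 * ((C₁ : ℤ) + 1) * (n * polyHeight κ P)) =
        20 * ((C₁ : ℤ) + 1) * (polyHeight κ P * (n : ℤ) ^ 2) := by ring
    have k3 : 20 * ((C₁ : ℤ) + 1) * (polyHeight κ P * (n : ℤ) ^ 2) ≤
        20 * ((C₁ : ℤ) + 1) * (C₈ * height κ X.x) :=
      mul_le_mul_of_nonneg_left hPs' (by positivity)
    have k4 : 20 * ((C₁ : ℤ) + 1) * (C₈ * height κ X.x) ≤
        (20 * ((C₁ : ℤ) + 1) * (C₈ + 1)) * height κ X.x := by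
      have : 0 ≤ 20 * ((C₁ : ℤ) + 1) * height κ X.x := mul_nonneg (by positivity) hpos.le
      nlinarith
    have k5 : (0 : ℤ) < 20 * ((C₁ : ℤ) + 1) * (C₈ + 1) := by positivity
    refine le_of_mul_le_mul_left ?_ k5
    linarith
  have hP2 : 20 * (n * polyHeight κ P) ≤ 20 * ((C₁ : ℤ) + 1) * (n * polyHeight κ P) := by
    have : 0 ≤ 20 * (C₁ : ℤ) * (n * polyHeight κ P) := by positivity
    linarith
  have hP3 : 20 * (((C₁ * n : ℕ) : ℤ) * polyHeight κ P) ≤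
      20 * ((C₁ : ℤ) + 1) * (n * polyHeight κ P) := by
    have : 0 ≤ 20 * (n * polyHeight κ P) := by positivity
    push_cast
    linarith
  have hPnn : 20 * polyHeight κ P ≤ (n : ℤ) * polyHeight κ P :=
    mul_le_mul_of_nonneg_right hnz hPn
  refine certSP_of_plane h (X.blk j₀) X.hEκ hτ (fun i I hI w => ha w (f i) I hI) hF
    (fun Q hQ hhQ => ?_) hP0 hPh he hPe ?_ (fun i => ?_) ?_
  · have h1 := hsl Q hQ
    have h2 : (2 : ℝ) * ht κ Q ≤ height κ X.x := by exact_mod_cast hhQ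
    have hHr : (0 : ℝ) < height κ X.x := by exact_mod_cast hpos
    have h3 : (n : ℝ) * (height κ X.x : ℝ) ≤
        2 * C₀ * (height κ X.x : ℝ) * ((finrank L Q : ℝ) - 1) := by
      have h4 : (0 : ℝ) ≤ n := Nat.cast_nonneg _
      nlinarith
    have h5 : (n : ℝ) ≤ 2 * C₀ * ((finrank L Q : ℝ) - 1) := by
      refine le_of_mul_le_mul_right ?_ hHr
      linarith
    have h6 : n + 2 * C₀ ≤ 2 * C₀ * finrank L Q := by
      have : (n : ℝ) + 2 * C₀ ≤ 2 * C₀ * finrank L Q := by linarith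
      exact_mod_cast this
    have h7 : (n + 2 * C₀) / (2 * C₀) ≤ finrank L Q := by
      rw [Nat.div_le_iff_le_mul_add_pred (by omega)]
      omega
    rw [Nat.add_div_right _ (by omega)] at h7
    exact h7
  · show 9 * ((C₁ * n : ℕ) : ℤ) * polyHeight κ P + 3 * ((C₁ * n : ℕ) : ℤ) * X.Δ < height κ X.x
    linarith
  · have h1 : (d (f i) : ℤ) ≤ 2 * n := by
      exact_mod_cast hd2 i
    have h2 : (d (f i) : ℤ) * polyHeight κ P ≤ 2 * n * polyHeight κ P :=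
      mul_le_mul_of_nonneg_right h1 hPn
    show (d (f i) : ℤ) * polyHeight κ P + ((C₁ * n : ℕ) : ℤ) * ∑ᶠ w, (τ w : ℤ) < height κ X.x
    linarith
  · have h1 : 2 * ((n : ℤ) + 1) * (3 * polyHeight κ P + X.Δ) =
        6 * (n * polyHeight κ P) + 6 * polyHeight κ P + 2 * (((n : ℤ) + 1) * X.Δ) := by ring
    show 2 * ((n : ℤ) + 1) * (3 * polyHeight κ P + X.Δ) ≤ height κ X.x
    rw [h1]
    linarith

end Pool.Agent.Lib.MP_44a246_ntVQ
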