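import Mathlib
import Pool.Agent.Lib.MP_44a246_ntSH.CW03b
import Pool.Agent.Lib.MP_44a246_ntSH.CW07
import Pool.Agent.Lib.MP_44a246_ntSH.CW10a
import Pool.Agent.Lib.MP_44a246_ntSP.TP02
import Pool.Agent.Lib.MP_44a246_ntVT.VF02
import Pool.Agent.Lib.MP_44a246_ntVQ.VN03

/-!
# The sharp Vojta inequality for generic complete intersections of general type, all divisors
-/

namespace Pool.Agent.Lib.MP_44a246_ntVQ

open Pool.Agent.Lib.MP_44a246_nt
open Pool.Agent.Lib.MP_44a246_ntL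
open Pool.Agent.Lib.MP_44a246_ntS
open Pool.Agent.Lib.MP_44a246_ntG
open Pool.Agent.Lib.MP_44a246_ntK
open Pool.Agent.Lib.MP_44a246_ntU
open Pool.Agent.Lib.MP_44a246_ntSH
open Pool.Agent.Lib.MP_44a246_ntVT (algInd_sub VojtaAt)
open Pool.Agent.Lib.MP_e52354_nt
open MvPolynomial Module

universe u v w

private theorem num1 (C₁ n Q i : ℕ) (hQ : 1 ≤ Q) (hn : 8000 * Q ≤ n)
    (hi : 2 ^ i * (2 * C₁ * (8000 * Q)) ≤ 3 ^ i) :
    2 ^ i * (2 * (C₁ * n)) ≤ 3 ^ i * (n / (4000 * Q)) := by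
  have h1 : n ≤ 8000 * Q * (n / (4000 * Q)) := by
    have h2 := Nat.div_add_mod n (4000 * Q)
    have h3 := Nat.mod_lt n (show 0 < 4000 * Q by omega)
    have h4 : 1 ≤ n / (4000 * Q) := by
      rw [Nat.le_div_iff_mul_le (by omega)]
      omega
    have h5 : 8000 * Q * (n / (4000 * Q)) =
        4000 * Q * (n / (4000 * Q)) + 4000 * Q * (n / (4000 * Q)) := by ring
    have h6 : 4000 * Q * 1 ≤ 4000 * Q * (n / (4000 * Q)) := Nat.mul_le_mul_left _ h4
    omega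
  calc 2 ^ i * (2 * (C₁ * n)) ≤ 2 ^ i * (2 * (C₁ * (8000 * Q * (n / (4000 * Q))))) := by
        gcongr
    _ = 2 ^ i * (2 * C₁ * (8000 * Q)) * (n / (4000 * Q)) := by ring
    _ ≤ 3 ^ i * (n / (4000 * Q)) := Nat.mul_le_mul_right _ hi

/-- **The sharp Vojta inequality for generic complete intersections of general type, all
divisors.** -/
theorem vojta_mainN1 (p q : ℕ) {ε : ℝ} (hε : 0 < ε) (hε1 : ε ≤ 1) : ∃ n₀ : ℕ,
    ∀ (n : ℕ) (d : Fin p → ℕ) (A : Finset (Fin p)), n₀ ≤ n → (∀ j, 1 ≤ d j) →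
    n + 2 ≤ ∑ j ∈ A, d j →
    ∀ (κ : Type u) (K : Type v) [Field κ] [IsAlgClosed κ] [CharZero κ] [Field K] [CharZero K]
      [Algebra κ K] (_ : Cardinal.aleph0 ≤ Algebra.trdeg ℚ κ) (t : K) (_ : Transcendental κ t)
      (_ : FiniteDimensional (IntermediateField.adjoin κ {t}) K)
      (F : Fin p → MvPolynomial (Fin (n + 1)) K) (_ : ∀ j, (F j).IsHomogeneous (d j))
      (_ : AlgebraicIndependent ℚ
        (fun I : {I : Fin p × (Fin (n + 1) →₀ ℕ) // I.2.degree = d I.1} =>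
          (F I.1.1).coeff I.1.2))
      (S : Set (Place κ K)) (_ : S.Finite), VojtaAt.{u, v, w} κ d A F S q ε := by
  rcases Nat.eq_zero_or_pos p with hp | hp
  · subst hp
    refine ⟨0, fun n d A _ _ hd => ?_⟩
    rw [Finset.eq_empty_of_isEmpty A, Finset.sum_empty] at hd
    omega
  obtain ⟨Q, hQ⟩ : ∃ Q : ℕ, Q = p * (4 * p + 1) * (q + 3) := ⟨_, rfl⟩
  have hQ1 : 1 ≤ Q := by
    rw [hQ]
    exact Nat.mul_pos (Nat.mul_pos hp (by omega)) (by omega)
  have hQp : 15 * p ≤ Q := by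
    rw [hQ]
    have h1 : 5 * 3 ≤ (4 * p + 1) * (q + 3) := Nat.mul_le_mul (by omega) (by omega)
    calc 15 * p = p * (5 * 3) := by ring
      _ ≤ p * ((4 * p + 1) * (q + 3)) := Nat.mul_le_mul_left _ h1
      _ = _ := by ring
  obtain ⟨n₁, C₁, hmain⟩ := vojta_baseN.{u, v, w} p q Q hQ hε hε1
  obtain ⟨i, hi⟩ := exists_pow_le (2 * C₁ * (8000 * Q))
  refine ⟨max (max n₁ (8000 * Q)) ((2 * p + 4) * 2 ^ i),
    fun n d A hn hd1 hd κ K _ _ _ _ _ _ htr t ht hfin F hF hgen S hS => ?_⟩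
  have hn1 : n₁ ≤ n := le_trans (le_trans (le_max_left _ _) (le_max_left _ _)) hn
  have hn2 : 8000 * Q ≤ n := le_trans (le_trans (le_max_right _ _) (le_max_left _ _)) hn
  have hn3 : (2 * p + 4) * 2 ^ i ≤ n := le_trans (le_max_right _ _) hn
  have hK : IsFF κ K := ⟨t, ht, hfin⟩
  have ha := algInd_jexpo hgen
  obtain ⟨C, hC⟩ := hmain n d A hn1 hd1 hd κ K hK htr (fun j I => (F j).coeff I) ha
  obtain ⟨C', hC'⟩ := Pool.Agent.Lib.MP_44a246_ntSP.exists_places.{u, v, w} hK d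
    (fun j I => (F j).coeff I) hS
  obtain ⟨p', hp'⟩ : ∃ p', p' = A.card := ⟨_, rfl⟩
  have hpp : p' ≤ p := by
    rw [hp']
    exact (Finset.card_le_univ A).trans_eq (Fintype.card_fin p)
  obtain ⟨f, hf, hfA⟩ : ∃ f : Fin p' → Fin p, Function.Injective f ∧
      ∀ j, j ∈ A ↔ ∃ i, f i = j := by
    refine ⟨A.orderEmbOfFin hp'.symm, (A.orderEmbOfFin hp'.symm).injective, fun j => ?_⟩
    have h1 := Finset.range_orderEmbOfFin A hp'.symm
    constructor
    · intro hj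
      have h2 : j ∈ Set.range (A.orderEmbOfFin hp'.symm) := by
        rw [h1]
        exact hj
      exact h2
    · rintro ⟨i, rfl⟩
      exact Finset.orderEmbOfFin_mem A hp'.symm i
  have hsum : ∑ i, d (f i) = ∑ j ∈ A, d j := by
    classical
    have h1 : A = Finset.univ.image f := by
      ext j
      rw [hfA, Finset.mem_image]
      simp
    rw [h1, Finset.sum_image fun _ _ _ _ h => hf h]
  have hd' : n + 2 ≤ ∑ i, d (f i) := by
    rw [hsum]
    exact hd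
  obtain ⟨R, hR⟩ : ∃ R, R + 2 + p' = n + 1 := ⟨n - 1 - p', by omega⟩
  have hd1' : ∀ i, 1 ≤ d (f i) := fun i => hd1 (f i)
  -- no certificates at the generic point
  have hcert₁ : NoCertSP.{v} R n p' (fun i => d (f i)) (C₁ * n) (n / (4000 * Q) + 1) := by
    refine noCertSP_growth (i := i) hR hd1' hd' (num1 C₁ n Q i hQ1 hn2 hi) ?_
    have h1 : (2 * p' + 4) * 2 ^ i ≤ (2 * p + 4) * 2 ^ i := Nat.mul_le_mul_right _ (by omega)
    omega
  have hcert₂ : NoCertSP.{v} R n p' (fun i => d (f i)) (n / (400 * Q)) 1 := by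
    refine noCertSP_low hR hd1' hd' ?_
    have h1 : 400 * Q * (n / (400 * Q)) ≤ n := Nat.mul_div_le n (400 * Q)
    have h2 : (p' + 2) * (2 * (n / (400 * Q))) ≤ 400 * Q * (n / (400 * Q)) := by
      rw [← mul_assoc]
      exact Nat.mul_le_mul_right _ (by omega)
    exact h2.trans h1
  have ha' : AlgebraicIndependent ℚ
      (fun s : {s : Fin p' × (Fin (n + 1) →₀ ℕ) // s ∈ jexpo n (fun i => d (f i))} =>
        (F (f s.1.1)).coeff s.1.2) :=
    algInd_sub (a := fun j I => (F j).coeff I) ha hf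
  obtain ⟨a', ha'e⟩ : ∃ a' : Fin p' → (Fin (n + 1) →₀ ℕ) → K,
    a' = fun i I => (F (f i)).coeff I := ⟨_, rfl⟩
  have ha'' : AlgebraicIndependent ℚ
      (fun s : {s : Fin p' × (Fin (n + 1) →₀ ℕ) // s ∈ jexpo n (fun i => d (f i))} =>
        a' s.1.1 s.1.2) := by
    rw [ha'e]
    exact ha'
  obtain ⟨G, hG1, hG2, hG3⟩ := exists_excFormBP.{v, w} (k := ℚ) (K := K) hR hd1' hcert₁ hcert₂
    (a := a') ha''
  rw [ha'e] at hG2 hG3
  have hFs : ∀ i, ∑ I ∈ expo (Fin (n + 1)) (d (f i)), monomial I ((F (f i)).coeff I) = F (f i) :=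
    fun i => form_eq_sum (hF (f i))
  obtain ⟨z, hz0, hzF, hzG⟩ := hG2
  refine ⟨G, hG1, ⟨z, hz0, fun j hj => ?_, hzG⟩, C + C', ?_⟩
  · obtain ⟨i, rfl⟩ := (hfA j).1 hj
    rw [← hFs i]
    exact hzF i
  intro L _ _ _ _ _ x hx hFx hRam
  obtain ⟨T, hT1, hT2⟩ := hC' L x hx
  rcases hC L x hx T hT2 (fun j hj => by
    rw [← aeval_eq_Fval (F j) (hF j)]
    exact hFx j hj) with h | h
  · left
    have h1 := h hRam (((∑ j, d j : ℕ) : ℝ) - n - 1 - ε) (by linarith)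
    have h2 : (T.card : ℝ) ≤ C' * finrank K L + truncCount κ F d S x := by
      rw [Pool.Agent.Lib.MP_44a246_ntSP.truncCount_eq_meetSet d F hF S x]
      exact_mod_cast hT1
    push_cast at h1 ⊢
    linarith
  · right
    exact hG3 L x (h f fun i => (hfA _).2 ⟨i, rfl⟩)

/-- **The sharp Vojta inequality for generic complete intersections of general type, all
divisors**: for `n` large compared to the number `p` of the forms, `q` and `1 / ε`, the points `x`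
of `X = {F_j = 0, j ∈ A}`, outside of a fixed proper closed subset, with `R(L/K) ≤ q h(x)` satisfy
`(∑ d_j - n - 1 - ε) h(x) ≤ N(x) + R(L/K) + C [L : K]`. -/
theorem vojta_mainN (p q : ℕ) {ε : ℝ} (hε : 0 < ε) : ∃ n₀ : ℕ,
    ∀ (n : ℕ) (d : Fin p → ℕ) (A : Finset (Fin p)), n₀ ≤ n → (∀ j, 1 ≤ d j) →
    n + 2 ≤ ∑ j ∈ A, d j →
    ∀ (κ : Type u) (K : Type v) [Field κ] [IsAlgClosed κ] [CharZero κ] [Field K] [CharZero K]
      [Algebra κ K] (_ : Cardinal.aleph0 ≤ Algebra.trdeg ℚ κ) (t : K) (_ : Transcendental κ t)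
      (_ : FiniteDimensional (IntermediateField.adjoin κ {t}) K)
      (F : Fin p → MvPolynomial (Fin (n + 1)) K) (_ : ∀ j, (F j).IsHomogeneous (d j))
      (_ : AlgebraicIndependent ℚ
        (fun I : {I : Fin p × (Fin (n + 1) →₀ ℕ) // I.2.degree = d I.1} =>
          (F I.1.1).coeff I.1.2))
      (S : Set (Place κ K)) (_ : S.Finite), VojtaAt.{u, v, w} κ d A F S q ε := by
  obtain ⟨n₀, h⟩ := vojta_mainN1.{u, v, w} p q (ε := min ε 1) (lt_min hε one_pos)
    (min_le_right _ _)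
  refine ⟨n₀, fun n d A hn hd1 hd κ K _ _ _ _ _ _ htr t ht hfin F hF hgen S hS => ?_⟩
  obtain ⟨G, hG1, hG2, C, hC⟩ := h n d A hn hd1 hd κ K htr t ht hfin F hF hgen S hS
  refine ⟨G, hG1, hG2, C, fun L _ _ _ _ _ x hx hFx hRam => ?_⟩
  have hK : IsFF κ K := ⟨t, ht, hfin⟩
  have hL : IsFF κ L := hK.of_finite
  have h0 : (0 : ℝ) ≤ height κ x := by exact_mod_cast hL.height_nonneg hx
  rcases hC L x hx hFx hRam with h1 | h1
  · left
    have h2 : (((∑ j, d j : ℕ) : ℝ) - n - 1 - ε) * height κ x ≤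
        (((∑ j, d j : ℕ) : ℝ) - n - 1 - min ε 1) * height κ x :=
      mul_le_mul_of_nonneg_right (by linarith [min_le_left ε 1]) h0
    linarith
  · exact Or.inr h1

end Pool.Agent.Lib.MP_44a246_ntVQ
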